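import Pool.Agent.X245.GEN.Core
import Pool.Agent.X245.PFM.Basic

set_option autoImplicit false

/-!
# Reductions from arbitrary languages to gap problems: averages
-/

namespace Pool.Agent.X245.GEN

open Finset DomAC0 Pool.Agent.Y601 Pool.Agent.X246.ACR

open scoped Classical

/-- The average sensitivity of `f`. -/
noncomputable def avgSens {N : ℕ} (f : (Fin N → Bool) → Bool) : ℝ :=
  (∑ x : Fin N → Bool,
    ((univ.filter fun i => f (Function.update x i (!x i)) ≠ f x).card : ℝ)) / 2 ^ N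

variable {N : ℕ} {R K L : Type} [Fintype R]

theorem rightSens_nonneg (sat : L → K → Prop) (ε δ : ℝ) (f : (Fin N → Bool) → Bool)
    (Y : (Fin N → Bool) → R → Option K) : 0 ≤ rightSens sat ε δ f Y := by
  unfold rightSens
  positivity

/-- If the list is right for all inputs then `rightSens` is the average sensitivity. -/
theorem rightSens_all (sat : L → K → Prop) (ε δ : ℝ) (f : (Fin N → Bool) → Bool)
    (Y : (Fin N → Bool) → R → Option K) (h : ∀ x, Right sat ε δ (f x) (Y x)) :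
    rightSens sat ε δ f Y = avgSens f := by
  unfold rightSens avgSens
  congr 1
  refine sum_congr rfl fun x _ => ?_
  congr 2
  ext i
  simp only [mem_filter, mem_univ, true_and]
  exact ⟨fun h1 => h1.1, fun h1 => ⟨h1, h _, h _⟩⟩

/-- If the list is right for most inputs then `rightSens` is not much smaller. -/
theorem rightSens_most (sat : L → K → Prop) (ε δ γ : ℝ) (f : (Fin N → Bool) → Bool)
    (Y : (Fin N → Bool) → R → Option K)
    (h : (1 / 2 + γ) * 2 ^ N ≤ ((univ.filter fun x => Right sat ε δ (f x) (Y x)).card : ℝ)) :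
    avgSens f - (1 - 2 * γ) * N ≤ rightSens sat ε δ f Y := by
  obtain ⟨w, hw⟩ : ∃ w : (Fin N → Bool) → ℝ, w = fun x =>
      if Right sat ε δ (f x) (Y x) then (0 : ℝ) else 1 := ⟨_, rfl⟩
  have hwsum : ∑ x, w x ≤ (1 / 2 - γ) * 2 ^ N := by
    have h1 : ∀ x, w x = 1 - (if Right sat ε δ (f x) (Y x) then (1 : ℝ) else 0) := by
      intro x
      rw [hw]
      show (if Right sat ε δ (f x) (Y x) then (0 : ℝ) else 1) = _
      split_ifs <;> norm_num
    rw [sum_congr rfl fun x _ => h1 x, sum_sub_distrib, sum_const, card_univ, Fintype.card_fun,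
      Fintype.card_bool, Fintype.card_fin, nsmul_eq_mul, mul_one]
    have h2 : ∑ x, (if Right sat ε δ (f x) (Y x) then (1 : ℝ) else 0) =
        ((univ.filter fun x => Right sat ε δ (f x) (Y x)).card : ℝ) := by
      rw [card_filter]; push_cast; rfl
    rw [h2]
    push_cast
    linarith
  have h2 : ∀ i : Fin N, ∑ x, w (SSE.flip i x) = ∑ x, w x := fun i => sum_flip i w
  have h3 : ∀ (i : Fin N) (x : Fin N → Bool), (if f (SSE.flip i x) ≠ f x then (1 : ℝ) else 0) -
      w x - w (SSE.flip i x) ≤ rs1 sat ε δ f Y i x := by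
    intro i x
    unfold rs1
    rw [hw]
    show (if f (SSE.flip i x) ≠ f x then (1 : ℝ) else 0) -
      (if Right sat ε δ (f x) (Y x) then (0 : ℝ) else 1) -
      (if Right sat ε δ (f (SSE.flip i x)) (Y (SSE.flip i x)) then (0 : ℝ) else 1) ≤ _
    by_cases ha : f (SSE.flip i x) ≠ f x <;> by_cases hb : Right sat ε δ (f x) (Y x) <;>
      by_cases hc : Right sat ε δ (f (SSE.flip i x)) (Y (SSE.flip i x)) <;>
      simp [ha, hb, hc]
  have h4 : ∑ i : Fin N, ∑ x, ((if f (SSE.flip i x) ≠ f x then (1 : ℝ) else 0) -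
      w x - w (SSE.flip i x)) ≤ ∑ i, ∑ x, rs1 sat ε δ f Y i x :=
    sum_le_sum fun i _ => sum_le_sum fun x _ => h3 i x
  rw [← rightSens_eq] at h4
  have h5 : ∑ i : Fin N, ∑ x, ((if f (SSE.flip i x) ≠ f x then (1 : ℝ) else 0) -
      w x - w (SSE.flip i x)) = avgSens f * 2 ^ N - 2 * N * ∑ x, w x := by
    have h6 : avgSens f * 2 ^ N = ∑ i : Fin N, ∑ x : Fin N → Bool,
        (if f (SSE.flip i x) ≠ f x then (1 : ℝ) else 0) := by
      unfold avgSens
      rw [div_mul_cancel₀ _ (by positivity), sum_comm]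
      refine sum_congr rfl fun x _ => ?_
      rw [card_filter]
      push_cast
      rfl
    have h7 : ∀ i : Fin N, ∑ x, ((if f (SSE.flip i x) ≠ f x then (1 : ℝ) else 0) -
        w x - w (SSE.flip i x)) = ∑ x, (if f (SSE.flip i x) ≠ f x then (1 : ℝ) else 0) -
        2 * ∑ x, w x := by
      intro i
      rw [sum_sub_distrib, sum_sub_distrib, h2 i]
      ring
    rw [sum_congr rfl fun i _ => h7 i, sum_sub_distrib, h6, sum_const, card_univ,
      Fintype.card_fin, nsmul_eq_mul]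
    ring
  rw [h5] at h4
  have hN : (0 : ℝ) ≤ N := Nat.cast_nonneg _
  have h8 : (2 : ℝ) * N * ∑ x, w x ≤ 2 * N * ((1 / 2 - γ) * 2 ^ N) :=
    mul_le_mul_of_nonneg_left hwsum (by positivity)
  have h9 : (avgSens f - (1 - 2 * γ) * N) * 2 ^ N ≤ rightSens sat ε δ f Y * 2 ^ N := by
    have : (avgSens f - (1 - 2 * γ) * N) * 2 ^ N =
        avgSens f * 2 ^ N - 2 * N * ((1 / 2 - γ) * 2 ^ N) := by ring
    rw [this]
    linarith
  exact le_of_mul_le_mul_right h9 (by positivity)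

/-- Randomised reductions computed by circuits of small depth. -/
theorem ac0_mean {sat : L → K → Prop} {ε δ : ℝ} (hε : 0 ≤ ε) (hδ : 0 ≤ δ) (hεδ : ε + δ < 1)
    {Ω : Type} [Fintype Ω] [Nonempty Ω]
    (f : (Fin N → Bool) → Bool) (C : Ω → Circuit (Fin N)) {b : ℕ} (hb : 1 ≤ b)
    (out : ∀ ω, R → Fin b → Fin N ⊕ Fin (C ω).size)
    (dec : Ω → R → (Fin b → Bool) → Option K) (h S : ℕ)
    (hh : ∀ ω r j, (C ω).nodeDepth (out ω r j) ≤ h) (hS : ∀ ω, (C ω).size ≤ S) :
    (2 : ℝ) ^ (((1 - ε - δ) * ((∑ ω, rightSens sat ε δ f (inst (C ω) (out ω) (dec ω))) /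
      Fintype.card Ω) / b) ^ (1 / (h + 1 : ℝ)) / 24) ≤ 2 * (h * S * N + 1) := by
  have hc : (0 : ℝ) < Fintype.card Ω := by exact_mod_cast Fintype.card_pos
  have hg0 : 0 ≤ 1 - ε - δ := by linarith
  have hX0 : 0 ≤ (1 - ε - δ) * ((∑ ω, rightSens sat ε δ f (inst (C ω) (out ω) (dec ω))) /
      Fintype.card Ω) := by
    refine mul_nonneg hg0 (div_nonneg (sum_nonneg fun ω _ => rightSens_nonneg _ _ _ _ _) hc.le)
  refine Pool.Agent.X245.PFM.size_bound N h b S hb _ hX0 fun s hs hcond => ?_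
  have h1 : ∀ ω, (1 - ε - δ) * rightSens sat ε δ f (inst (C ω) (out ω) (dec ω)) ≤
      b * (24 * s) ^ (h + 1) := by
    intro ω
    refine ac0_gen hε hδ hεδ f (C ω) hb (out ω) (dec ω) h (hh ω) hs (le_trans ?_ hcond)
    have h2 : ((C ω).size : ℝ) ≤ S := by exact_mod_cast hS ω
    exact mul_le_mul_of_nonneg_right (mul_le_mul_of_nonneg_left h2 (Nat.cast_nonneg _))
      (Nat.cast_nonneg _)
  have h2 := sum_le_sum fun ω (_ : ω ∈ (univ : Finset Ω)) => h1 ω
  rw [← mul_sum, sum_const, card_univ, nsmul_eq_mul] at h2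
  rw [← mul_div_assoc, div_le_iff₀ hc]
  linarith

/-- Randomised reductions computed by formulas. -/
theorem form_mean {sat : L → K → Prop} {ε δ : ℝ} (hε : 0 ≤ ε) (hδ : 0 ≤ δ) (hεδ : ε + δ < 1)
    {Ω : Type} [Fintype Ω] [Nonempty Ω]
    (f : (Fin N → Bool) → Bool) {b : ℕ} (hb : 1 ≤ b) (F : Ω → R → Fin b → DeMorgan (Fin N))
    (dec : Ω → R → (Fin b → Bool) → K) (S : ℕ) (hS : ∀ ω r j, (F ω r j).size ≤ S) :
    ((1 - ε - δ) * ((∑ ω, rightSens sat ε δ f
      (fun x r => some (dec ω r fun j => (F ω r j).eval x))) / Fintype.card Ω) / (2 * b)) ^ 2 ≤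
      S := by
  have hc : (0 : ℝ) < Fintype.card Ω := by exact_mod_cast Fintype.card_pos
  have hb0 : (0 : ℝ) < b := by exact_mod_cast hb
  have hg0 : 0 ≤ 1 - ε - δ := by linarith
  have hX0 : 0 ≤ (1 - ε - δ) * ((∑ ω, rightSens sat ε δ f
      (fun x r => some (dec ω r fun j => (F ω r j).eval x))) / Fintype.card Ω) / (2 * b) := by
    refine div_nonneg (mul_nonneg hg0
      (div_nonneg (sum_nonneg fun ω _ => rightSens_nonneg _ _ _ _ _) hc.le)) (by positivity)
  have h2 := sum_le_sum fun ω (_ : ω ∈ (univ : Finset Ω)) =>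
    form_gen (sat := sat) hε hδ f (F ω) (dec ω) S (hS ω)
  rw [← mul_sum, sum_const, card_univ, nsmul_eq_mul] at h2
  have h3 : (1 - ε - δ) * ((∑ ω, rightSens sat ε δ f
      (fun x r => some (dec ω r fun j => (F ω r j).eval x))) / Fintype.card Ω) / (2 * b) ≤ √S := by
    rw [div_le_iff₀ (by positivity), ← mul_div_assoc, div_le_iff₀ hc]
    linarith
  calc _ ≤ √(S : ℝ) ^ 2 := pow_le_pow_left₀ hX0 h3 2
    _ = S := Real.sq_sqrt (Nat.cast_nonneg _)

end Pool.Agent.X245.GEN
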