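import Pool.Agent.X246.ACR.NegUp
import Pool.Agent.X245.GEN.Avg

set_option autoImplicit false

/-!
# Reductions from arbitrary languages to gap problems: negations
-/

namespace Pool.Agent.X245.GEN

open Finset DomAC0 Pool.Agent.Y601 Pool.Agent.X246.ACR

open scoped Classical

variable {N : ℕ}

/-- The number of the changes of the value of `f` along `z 0, ..., z m`. -/
noncomputable def changes (f : (Fin N → Bool) → Bool) (z : ℕ → Fin N → Bool) (m : ℕ) : ℕ :=
  ((range m).filter fun j => f (z (j + 1)) ≠ f (z j)).card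

theorem changes_succ (f : (Fin N → Bool) → Bool) (z : ℕ → Fin N → Bool) (m : ℕ) :
    changes f z (m + 1) = changes f z m + if f (z (m + 1)) ≠ f (z m) then 1 else 0 := by
  unfold changes
  rw [range_add_one, filter_insert]
  split_ifs with h
  · rw [card_insert_of_notMem (by simp)]
  · rfl

theorem odd_changes (f : (Fin N → Bool) → Bool) (z : ℕ → Fin N → Bool) (m : ℕ) :
    Odd (changes f z m) ↔ f (z m) ≠ f (z 0) := by
  induction m with
  | zero => simp [changes]
  | succ m ih =>
    rw [changes_succ]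
    by_cases h : f (z (m + 1)) ≠ f (z m)
    · rw [if_pos h, Nat.odd_add_one, ih]
      revert h
      cases f (z (m + 1)) <;> cases f (z m) <;> cases f (z 0) <;> simp
    · rw [if_neg h, add_zero, ih]
      rw [not_not] at h
      rw [h]

theorem changes_congr (f : (Fin N → Bool) → Bool) (z w : ℕ → Fin N → Bool) (m : ℕ)
    (h : ∀ j ≤ m, z j = w j) : changes f z m = changes f w m := by
  unfold changes
  congr 1
  refine filter_congr fun j hj => ?_
  rw [mem_range] at hj
  rw [h j hj.le, h (j + 1) hj]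

theorem changes_shift (f : (Fin N → Bool) → Bool) (z : ℕ → Fin N → Bool) (y : Fin N → Bool)
    (m : ℕ) : changes f (fun j => if j = 0 then y else z (j - 1)) (m + 1) =
      changes f z m + if f (z 0) ≠ f y then 1 else 0 := by
  induction m with
  | zero =>
    rw [changes_succ]
    simp [changes]
  | succ m ih =>
    rw [changes_succ, ih, changes_succ]
    simp only [Nat.add_eq_zero_iff, one_ne_zero, and_false, if_false, Nat.add_sub_cancel]
    omega

section

variable {R K L : Type} [Fintype R]

/-- The worst case bound for reductions with few negations. -/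
theorem neg_chain {sat : L → K → Prop} {ε δ κ : ℝ} (hε : 0 ≤ ε) (hδ : 0 ≤ δ) (hεδ : ε + δ < 1)
    {b t : ℕ} (F : R → Fin b → (Fin N → Bool) → Bool) (hF : ∀ r j, NegComp t (F r j))
    (dec : R → (Fin b → Bool) → Option K) (f : (Fin N → Bool) → Bool)
    (z : ℕ → Fin N → Bool) (hz : Monotone z) (m : ℕ) (A : (Fin N → Bool) → Prop)
    (hA : ∀ x, A x → Right sat ε δ (f x) (fun r => dec r fun i => F r i x) ∧
      κ * Fintype.card R ≤ total (fun r => dec r fun i => F r i x)) :
    (1 - ε - δ) * κ * ((range m).filter fun j => f (z (j + 1)) ≠ f (z j) ∧ A (z j) ∧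
      A (z (j + 1))).card ≤ b * (2 ^ (t + 1) - 1) := by
  obtain ⟨a, ha⟩ : ∃ a, a = ((range m).filter fun j => f (z (j + 1)) ≠ f (z j) ∧ A (z j) ∧
      A (z (j + 1))).card := ⟨_, rfl⟩
  rw [← ha]
  rcases Nat.eq_zero_or_pos a with h0 | h0
  · rw [h0, Nat.cast_zero, mul_zero]
    have : (1 : ℝ) ≤ 2 ^ (t + 1) := one_le_pow₀ (by norm_num)
    apply mul_nonneg (Nat.cast_nonneg _)
    linarith
  obtain ⟨Y, hY⟩ : ∃ Y : (Fin N → Bool) → R → Option K,
      Y = fun x r => dec r fun i => F r i x := ⟨_, rfl⟩
  have hA' : ∀ x, A x → Right sat ε δ (f x) (Y x) ∧ κ * Fintype.card R ≤ total (Y x) := by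
    intro x hx
    rw [hY]
    exact hA x hx
  have hR : (0 : ℝ) < Fintype.card R := by
    rw [ha] at h0
    obtain ⟨j, hj⟩ := card_pos.1 h0
    rw [mem_filter] at hj
    have h1 := (hA' _ hj.2.2.1).1.1
    unfold total at h1
    have h2 : 1 ≤ Fintype.card R := h1.trans (card_le_univ _)
    exact_mod_cast h2
  have hM : ∀ r, ((range m).filter fun j => Y (z (j + 1)) r ≠ Y (z j) r).card ≤
      b * (2 ^ (t + 1) - 1) := by
    intro r
    have h1 : ((range m).filter fun j => Y (z (j + 1)) r ≠ Y (z j) r) ⊆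
        (univ : Finset (Fin b)).biUnion fun i =>
          (range m).filter fun j => F r i (z (j + 1)) ≠ F r i (z j) := by
      intro j hj
      rw [mem_filter] at hj
      rw [mem_biUnion]
      by_contra hcon
      push Not at hcon
      apply hj.2
      rw [hY]
      show dec r _ = dec r _
      congr 1
      funext i
      have := hcon i (mem_univ _)
      rw [mem_filter] at this
      push Not at this
      exact this hj.1
    refine (card_le_card h1).trans (card_biUnion_le.trans ?_)
    calc ∑ i, ((range m).filter fun j => F r i (z (j + 1)) ≠ F r i (z j)).card ≤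
          ∑ _i : Fin b, (2 ^ (t + 1) - 1) := by
          refine sum_le_sum fun i _ => ?_
          obtain ⟨l, hl, hmem⟩ := hF r i
          obtain ⟨K', _, hK, k, d, hk, hd⟩ := hl.det _ hmem
          have h3 : ((range m).filter fun j => F r i (z (j + 1)) ≠ F r i (z j)).card ≤
              Fintype.card K' := by
            convert det_chain k hk _ d hd z hz m
          omega
      _ = _ := by rw [sum_const, card_univ, Fintype.card_fin, smul_eq_mul]
  have h1 : ∀ j ∈ range m, (1 - ε - δ) * (κ * Fintype.card R) *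
      (if f (z (j + 1)) ≠ f (z j) ∧ A (z j) ∧ A (z (j + 1)) then (1 : ℝ) else 0) ≤
      ((univ.filter fun r => Y (z (j + 1)) r ≠ Y (z j) r).card : ℝ) := by
    intro j hj
    rw [mem_range] at hj
    split_ifs with hne
    · rw [mul_one]
      obtain ⟨hne, hx, hy⟩ := hne
      obtain ⟨⟨-, ha1, ha2⟩, ha3⟩ := hA' _ hx
      obtain ⟨⟨-, hb1, hb2⟩, hb3⟩ := hA' _ hy
      cases h : f (z j)
      · have h2 : f (z (j + 1)) = true := by
          rw [h] at hne
          exact Bool.eq_true_of_not_eq_false hne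
        refine (pair_ne hε hδ hεδ (hb1 h2) (ha2 h) hb3 ha3).trans ?_
        simp only [ne_comm]
        exact le_rfl
      · have h2 : f (z (j + 1)) = false := by
          rw [h] at hne
          exact Bool.eq_false_of_not_eq_true hne
        exact pair_ne hε hδ hεδ (ha1 h) (hb2 h2) ha3 hb3
    · rw [mul_zero]
      exact Nat.cast_nonneg _
  have h2 := sum_le_sum h1
  rw [← mul_sum] at h2
  have h2' : ∑ j ∈ range m, (if f (z (j + 1)) ≠ f (z j) ∧ A (z j) ∧ A (z (j + 1)) then (1 : ℝ)
      else 0) = a := by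
    rw [ha, card_filter]
    push_cast
    rfl
  rw [h2'] at h2
  have h3 : ∑ j ∈ range m, ((univ.filter fun r => Y (z (j + 1)) r ≠ Y (z j) r).card : ℝ) =
      ∑ r, (((range m).filter fun j => Y (z (j + 1)) r ≠ Y (z j) r).card : ℝ) := by
    simp_rw [card_filter]
    push_cast
    rw [sum_comm]
  rw [h3] at h2
  have h4 : ∑ r, (((range m).filter fun j => Y (z (j + 1)) r ≠ Y (z j) r).card : ℝ) ≤
      ∑ _r : R, (b * (2 ^ (t + 1) - 1) : ℝ) := sum_le_sum fun r _ => by
    have h5 : (((range m).filter fun j => Y (z (j + 1)) r ≠ Y (z j) r).card : ℝ) ≤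
        ((b * (2 ^ (t + 1) - 1) : ℕ) : ℝ) := by exact_mod_cast hM r
    refine h5.trans (le_of_eq ?_)
    have : 1 ≤ 2 ^ (t + 1) := Nat.one_le_two_pow
    push_cast [Nat.cast_sub this]
    ring
  rw [sum_const, card_univ, nsmul_eq_mul] at h4
  have h5 : ((1 - ε - δ) * κ * a) * Fintype.card R ≤
      (b * (2 ^ (t + 1) - 1)) * Fintype.card R := by
    linarith
  exact le_of_mul_le_mul_right h5 hR

/-- The worst case bound for randomised reductions with few negations. -/
theorem neg_chain_rand {sat : L → K → Prop} {ε δ κ η : ℝ} (hε : 0 ≤ ε) (hδ : 0 ≤ δ)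
    (hεδ : ε + δ < 1) (hκ : 0 ≤ κ) {Ω : Type} [Fintype Ω] [Nonempty Ω]
    {b t : ℕ} (F : Ω → R → Fin b → (Fin N → Bool) → Bool) (hF : ∀ ω r j, NegComp t (F ω r j))
    (dec : Ω → R → (Fin b → Bool) → Option K) (f : (Fin N → Bool) → Bool)
    (z : ℕ → Fin N → Bool) (hz : Monotone z) (m : ℕ) (A : Ω → (Fin N → Bool) → Prop)
    (hA : ∀ ω x, A ω x → Right sat ε δ (f x) (fun r => dec ω r fun i => F ω r i x) ∧
      κ * Fintype.card R ≤ total (fun r => dec ω r fun i => F ω r i x))
    (hp : ∀ j ≤ m, (1 - η) * Fintype.card Ω ≤ ((univ.filter fun ω => A ω (z j)).card : ℝ)) :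
    (1 - ε - δ) * κ * (1 - 2 * η) * changes f z m ≤ b * (2 ^ (t + 1) - 1) := by
  have hc : (0 : ℝ) < Fintype.card Ω := by exact_mod_cast Fintype.card_pos
  have h0 : 0 ≤ (1 - ε - δ) * κ := mul_nonneg (by linarith) hκ
  have h1 := sum_le_sum fun ω (_ : ω ∈ (univ : Finset Ω)) =>
    neg_chain (sat := sat) hε hδ hεδ (F ω) (hF ω) (dec ω) f z hz m (A ω) (hA ω)
  rw [← mul_sum, sum_const, card_univ, nsmul_eq_mul] at h1
  have h2 : (Fintype.card Ω : ℝ) * ((1 - 2 * η) * changes f z m) ≤
      ∑ ω, (((range m).filter fun j => f (z (j + 1)) ≠ f (z j) ∧ A ω (z j) ∧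
        A ω (z (j + 1))).card : ℝ) := by
    have h3 : ∀ j ∈ range m, (if f (z (j + 1)) ≠ f (z j) then (1 : ℝ) else 0) *
        ((1 - 2 * η) * Fintype.card Ω) ≤ ∑ ω, (if f (z (j + 1)) ≠ f (z j) ∧ A ω (z j) ∧
          A ω (z (j + 1)) then (1 : ℝ) else 0) := by
      intro j hj
      rw [mem_range] at hj
      by_cases hne : f (z (j + 1)) ≠ f (z j)
      · rw [if_pos hne, one_mul]
        have h4 : ∀ ω, (if A ω (z j) then (1 : ℝ) else 0) + (if A ω (z (j + 1)) then (1 : ℝ) else 0)
            - 1 ≤ (if f (z (j + 1)) ≠ f (z j) ∧ A ω (z j) ∧ A ω (z (j + 1)) then (1 : ℝ) else 0) := by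
          intro ω
          by_cases ha : A ω (z j) <;> by_cases hb : A ω (z (j + 1)) <;> simp [ha, hb, hne]
        have h5 := sum_le_sum fun ω (_ : ω ∈ (univ : Finset Ω)) => h4 ω
        rw [sum_sub_distrib, sum_add_distrib, sum_const, card_univ, nsmul_eq_mul, mul_one] at h5
        have h6 := hp j hj.le
        have h7 := hp (j + 1) hj
        rw [card_filter] at h6 h7
        push_cast at h6 h7
        refine le_trans ?_ h5
        linarith
      · rw [if_neg hne, zero_mul]
        exact sum_nonneg fun ω _ => by split_ifs <;> norm_num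
    have h4 := sum_le_sum h3
    rw [← sum_mul, sum_comm] at h4
    have h5 : ∑ j ∈ range m, (if f (z (j + 1)) ≠ f (z j) then (1 : ℝ) else 0) =
        changes f z m := by
      unfold changes
      rw [card_filter]
      push_cast
      rfl
    rw [h5] at h4
    have h6 : ∀ ω, ∑ j ∈ range m, (if f (z (j + 1)) ≠ f (z j) ∧ A ω (z j) ∧
        A ω (z (j + 1)) then (1 : ℝ) else 0) = (((range m).filter fun j => f (z (j + 1)) ≠ f (z j) ∧
          A ω (z j) ∧ A ω (z (j + 1))).card : ℝ) := by
      intro ω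
      rw [card_filter]
      push_cast
      rfl
    rw [sum_congr rfl fun ω _ => h6 ω] at h4
    linarith
  have h3 := mul_le_mul_of_nonneg_left h2 h0
  have h4 : ((1 - ε - δ) * κ * (1 - 2 * η) * changes f z m) * Fintype.card Ω ≤
      (b * (2 ^ (t + 1) - 1)) * Fintype.card Ω := by
    linarith
  exact le_of_mul_le_mul_right h4 hc

/-- The average case bound for reductions with few negations. -/
theorem neg_mean {sat : L → K → Prop} {ε δ κ η : ℝ} (hε : 0 ≤ ε) (hδ : 0 ≤ δ) (hεδ : ε + δ < 1)
    (hκ : 0 ≤ κ) {b t : ℕ} (F : R → Fin b → (Fin N → Bool) → Bool)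
    (hF : ∀ r j, NegComp t (F r j)) (dec : R → (Fin b → Bool) → Option K)
    (f : (Fin N → Bool) → Bool) (hR : 0 < Fintype.card R)
    (hA : (1 - η) * 2 ^ N ≤ ((univ.filter fun x =>
      Right sat ε δ (f x) (fun r => dec r fun i => F r i x) ∧
        κ * Fintype.card R ≤ total (fun r => dec r fun i => F r i x)).card : ℝ)) :
    (1 - ε - δ) * κ * (avgSens f - 2 * η * N) ≤ b * (2 ^ (t + 1) - 1) * √N := by
  have hR' : (0 : ℝ) < Fintype.card R := by exact_mod_cast hR
  obtain ⟨Y, hY⟩ : ∃ Y : (Fin N → Bool) → R → Option K,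
      Y = fun x r => dec r fun i => F r i x := ⟨_, rfl⟩
  obtain ⟨A, hAd⟩ : ∃ A : (Fin N → Bool) → Prop, A = fun x =>
      Right sat ε δ (f x) (Y x) ∧ κ * Fintype.card R ≤ total (Y x) := ⟨_, rfl⟩
  have hA' : (1 - η) * 2 ^ N ≤ ((univ.filter fun x => A x).card : ℝ) := by
    rw [hAd, hY]
    convert hA
  obtain ⟨w, hw⟩ : ∃ w : (Fin N → Bool) → ℝ, w = fun x => if A x then (0 : ℝ) else 1 := ⟨_, rfl⟩
  have hwsum : ∑ x, w x ≤ η * 2 ^ N := by
    have h1 : ∀ x, w x = 1 - (if A x then (1 : ℝ) else 0) := by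
      intro x
      rw [hw]
      show (if A x then (0 : ℝ) else 1) = _
      split_ifs <;> norm_num
    rw [sum_congr rfl fun x _ => h1 x, sum_sub_distrib, sum_const, card_univ, Fintype.card_fun,
      Fintype.card_bool, Fintype.card_fin, nsmul_eq_mul, mul_one]
    have h2 : ∑ x, (if A x then (1 : ℝ) else 0) = ((univ.filter fun x => A x).card : ℝ) := by
      rw [card_filter]; push_cast; rfl
    rw [h2]
    push_cast
    linarith
  have h2 : ∀ i : Fin N, ∑ x, w (SSE.flip i x) = ∑ x, w x := fun i => sum_flip i w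
  have h0 : 0 ≤ (1 - ε - δ) * (κ * Fintype.card R) := by
    have : 0 ≤ 1 - ε - δ := by linarith
    positivity
  have h3 : ∀ (i : Fin N) (x : Fin N → Bool), (1 - ε - δ) * (κ * Fintype.card R) *
      ((if f (SSE.flip i x) ≠ f x then (1 : ℝ) else 0) - w x - w (SSE.flip i x)) ≤
      ((univ.filter fun r => Y (SSE.flip i x) r ≠ Y x r).card : ℝ) := by
    intro i x
    by_cases hg : f (SSE.flip i x) ≠ f x ∧ A x ∧ A (SSE.flip i x)
    · obtain ⟨hne, hx, hy⟩ := hg
      have e1 : w x = 0 := by rw [hw]; exact if_pos hx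
      have e2 : w (SSE.flip i x) = 0 := by rw [hw]; exact if_pos hy
      rw [if_pos hne, e1, e2, sub_zero, sub_zero, mul_one]
      rw [hAd] at hx hy
      obtain ⟨⟨-, ha1, ha2⟩, ha3⟩ := hx
      obtain ⟨⟨-, hb1, hb2⟩, hb3⟩ := hy
      cases h : f x
      · have h2 : f (SSE.flip i x) = true := by
          rw [h] at hne
          exact Bool.eq_true_of_not_eq_false hne
        refine (pair_ne hε hδ hεδ (hb1 h2) (ha2 h) hb3 ha3).trans ?_
        simp only [ne_comm]
        exact le_rfl
      · have h2 : f (SSE.flip i x) = false := by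
          rw [h] at hne
          exact Bool.eq_false_of_not_eq_true hne
        exact pair_ne hε hδ hεδ (ha1 h) (hb2 h2) ha3 hb3
    · have h4 : (if f (SSE.flip i x) ≠ f x then (1 : ℝ) else 0) - w x - w (SSE.flip i x) ≤ 0 := by
        rw [hw]
        show (if f (SSE.flip i x) ≠ f x then (1 : ℝ) else 0) - (if A x then (0 : ℝ) else 1) -
          (if A (SSE.flip i x) then (0 : ℝ) else 1) ≤ 0
        by_cases ha : f (SSE.flip i x) ≠ f x <;> by_cases hb : A x <;>
          by_cases hc : A (SSE.flip i x)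
        · exact absurd ⟨ha, hb, hc⟩ hg
        all_goals simp [ha, hb, hc]
      exact (mul_nonpos_of_nonneg_of_nonpos h0 h4).trans (Nat.cast_nonneg _)
  have h4 : ∑ i : Fin N, ∑ x, (1 - ε - δ) * (κ * Fintype.card R) *
      ((if f (SSE.flip i x) ≠ f x then (1 : ℝ) else 0) - w x - w (SSE.flip i x)) ≤
      ∑ i : Fin N, ∑ x, ((univ.filter fun r => Y (SSE.flip i x) r ≠ Y x r).card : ℝ) :=
    sum_le_sum fun i _ => sum_le_sum fun x _ => h3 i x
  have h5 : ∑ i : Fin N, ∑ x, (1 - ε - δ) * (κ * Fintype.card R) *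
      ((if f (SSE.flip i x) ≠ f x then (1 : ℝ) else 0) - w x - w (SSE.flip i x)) =
      (1 - ε - δ) * (κ * Fintype.card R) * (avgSens f * 2 ^ N - 2 * N * ∑ x, w x) := by
    have h6 : avgSens f * 2 ^ N = ∑ i : Fin N, ∑ x : Fin N → Bool,
        (if f (SSE.flip i x) ≠ f x then (1 : ℝ) else 0) := by
      unfold avgSens
      rw [div_mul_cancel₀ _ (by positivity), sum_comm]
      refine sum_congr rfl fun x _ => ?_
      rw [card_filter]
      push_cast
      rfl
    have h7 : ∀ i : Fin N, ∑ x, (1 - ε - δ) * (κ * Fintype.card R) *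
        ((if f (SSE.flip i x) ≠ f x then (1 : ℝ) else 0) - w x - w (SSE.flip i x)) =
        (1 - ε - δ) * (κ * Fintype.card R) *
          (∑ x, (if f (SSE.flip i x) ≠ f x then (1 : ℝ) else 0) - 2 * ∑ x, w x) := by
      intro i
      rw [← mul_sum, sum_sub_distrib, sum_sub_distrib, h2 i]
      ring
    rw [sum_congr rfl fun i _ => h7 i, ← mul_sum, sum_sub_distrib, h6, sum_const, card_univ,
      Fintype.card_fin, nsmul_eq_mul]
    ring
  rw [h5] at h4
  have h6 : ∑ i : Fin N, ∑ x, ((univ.filter fun r => Y (SSE.flip i x) r ≠ Y x r).card : ℝ) =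
      ∑ r, ∑ x, ((univ.filter fun i => Y (SSE.flip i x) r ≠ Y x r).card : ℝ) := by
    simp_rw [card_filter]
    push_cast
    rw [sum_comm, sum_comm (s := (univ : Finset R))]
    exact sum_congr rfl fun x _ => sum_comm
  rw [h6] at h4
  have hB : ∀ r, ∑ x, ((univ.filter fun i => Y (SSE.flip i x) r ≠ Y x r).card : ℝ) ≤
      b * (2 ^ (t + 1) - 1) * √N * 2 ^ N := by
    intro r
    rw [hY]
    have h1 : ∀ x : Fin N → Bool, ((univ.filter fun i => dec r (fun j => F r j (SSE.flip i x)) ≠
        dec r (fun j => F r j x)).card : ℝ) ≤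
        ∑ j, ((univ.filter fun i => F r j (SSE.flip i x) ≠ F r j x).card : ℝ) := by
      intro x
      have h2 : (univ.filter fun i => dec r (fun j => F r j (SSE.flip i x)) ≠
          dec r (fun j => F r j x)) ⊆ (univ : Finset (Fin b)).biUnion fun j =>
          univ.filter fun i => F r j (SSE.flip i x) ≠ F r j x := by
        intro i hi
        rw [mem_filter] at hi
        rw [mem_biUnion]
        by_contra hcon
        push Not at hcon
        apply hi.2
        congr 1
        funext j
        have := hcon j (mem_univ _)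
        rw [mem_filter] at this
        push Not at this
        exact this (mem_univ _)
      exact_mod_cast (card_le_card h2).trans card_biUnion_le
    refine (sum_le_sum fun x _ => h1 x).trans ?_
    rw [sum_comm]
    calc ∑ j, ∑ x : Fin N → Bool, ((univ.filter fun i => F r j (SSE.flip i x) ≠ F r j x).card : ℝ) ≤
          ∑ _j : Fin b, (2 ^ (t + 1) - 1) * (2 ^ N * √N) := by
          refine sum_le_sum fun j _ => ?_
          obtain ⟨l, hl, hmem⟩ := hF r j
          obtain ⟨K', _, hK, k, d, hk, hd⟩ := hl.det _ hmem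
          have h3 := det_sum k (fun j => Monotone.unate (hk j)) _ d hd
          have h4 : (Fintype.card K' : ℝ) = 2 ^ (t + 1) - 1 := by
            have : (Fintype.card K' : ℝ) + 1 = 2 ^ (t + 1) := by exact_mod_cast hK
            linarith
          rw [h4] at h3
          exact h3
      _ = _ := by
          rw [sum_const, card_univ, Fintype.card_fin, nsmul_eq_mul]
          ring
  have h7 : ∑ r, ∑ x, ((univ.filter fun i => Y (SSE.flip i x) r ≠ Y x r).card : ℝ) ≤
      ∑ _r : R, b * (2 ^ (t + 1) - 1) * √N * 2 ^ N := sum_le_sum fun r _ => hB r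
  rw [sum_const, card_univ, nsmul_eq_mul] at h7
  have hN : (0 : ℝ) ≤ N := Nat.cast_nonneg _
  have h8 : (1 - ε - δ) * (κ * Fintype.card R) * ((avgSens f - 2 * η * N) * 2 ^ N) ≤
      (1 - ε - δ) * (κ * Fintype.card R) * (avgSens f * 2 ^ N - 2 * N * ∑ x, w x) := by
    refine mul_le_mul_of_nonneg_left ?_ h0
    have := mul_le_mul_of_nonneg_left hwsum (by positivity : (0 : ℝ) ≤ 2 * N)
    linarith
  have h9 : ((1 - ε - δ) * κ * (avgSens f - 2 * η * N)) * (Fintype.card R * 2 ^ N) ≤
      (b * (2 ^ (t + 1) - 1) * √N) * (Fintype.card R * 2 ^ N) := by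
    linarith
  exact le_of_mul_le_mul_right h9 (by positivity)

end

/-- Markov's construction: if the value of `f` changes at most `2 ^ (t + 1) - 1` times along every
increasing chain then `f` or its complement is computed with `t` NOT gates. -/
theorem markov (t : ℕ) (f : (Fin N → Bool) → Bool)
    (hf : ∀ z : ℕ → Fin N → Bool, Monotone z → ∀ m, changes f z m ≤ 2 ^ (t + 1) - 1) :
    NegComp t fun x => xor (f x) (f fun _ => false) := by
  obtain ⟨T, hT⟩ : ∃ T : ℕ → (Fin N → Bool) → Bool, T = fun k x => decide (∃ z : ℕ → Fin N → Bool,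
      Monotone z ∧ ∃ m, z m ≤ x ∧ k < changes f z m) := ⟨_, rfl⟩
  have hmono : ∀ k, Monotone (T k) := by
    intro k x y hxy
    rw [hT]
    apply Bool.le_iff_imp.2
    rw [decide_eq_true_iff, decide_eq_true_iff]
    rintro ⟨z, hz, m, hm, hk⟩
    exact ⟨z, hz, m, hm.trans hxy, hk⟩
  obtain ⟨l', hl', hmem⟩ := parity_chain t 0 [] Circ.nil T
    (fun k _ x y hxy _ => hmono k hxy)
    (fun k x => by
      rw [hT]
      apply Bool.le_iff_imp.2
      rw [decide_eq_true_iff, decide_eq_true_iff]
      rintro ⟨z, hz, m, hm, hk⟩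
      exact ⟨z, hz, m, hm, by omega⟩)
  rw [Nat.zero_add] at hl'
  refine ⟨l', hl', ?_⟩
  convert hmem using 1
  funext x
  -- the maximal number of changes below `x`
  obtain ⟨P, hP⟩ : ∃ P : ℕ → Prop, P = fun a => ∃ z : ℕ → Fin N → Bool,
      Monotone z ∧ ∃ m, z m ≤ x ∧ changes f z m = a := ⟨_, rfl⟩
  have hP0 : P 0 := by
    rw [hP]
    exact ⟨fun _ => x, monotone_const, 0, le_rfl, by simp [changes]⟩
  obtain ⟨a, ha⟩ : ∃ a, a = Nat.findGreatest P (2 ^ (t + 1) - 1) := ⟨_, rfl⟩
  have hPa : P a := by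
    rw [ha]
    exact Nat.findGreatest_spec (Nat.zero_le _) hP0
  have hmax : ∀ c, P c → c ≤ a := by
    intro c hc
    have hc' : c ≤ 2 ^ (t + 1) - 1 := by
      rw [hP] at hc
      obtain ⟨z, hz, m, _, rfl⟩ := hc
      exact hf z hz m
    rw [ha]
    exact Nat.le_findGreatest hc' hc
  have ha' : a ≤ 2 ^ (t + 1) - 1 := by
    rw [ha]
    exact Nat.findGreatest_le _
  have hset : ((range (2 ^ (t + 1) - 1)).filter fun k => T k x = true) = range a := by
    ext k
    rw [mem_filter, mem_range, mem_range, hT]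
    simp only [decide_eq_true_iff]
    constructor
    · rintro ⟨_, z, hz, m, hm, hk⟩
      have := hmax (changes f z m) (by rw [hP]; exact ⟨z, hz, m, hm, rfl⟩)
      omega
    · intro hk
      refine ⟨by omega, ?_⟩
      rw [hP] at hPa
      obtain ⟨z, hz, m, hm, h1⟩ := hPa
      exact ⟨z, hz, m, hm, by omega⟩
  rw [hset, card_range]
  have key : Odd a ↔ f x ≠ f fun _ => false := by
    rw [hP] at hPa
    obtain ⟨z, hz, m, hm, h1⟩ := hPa
    rw [← h1, odd_changes]
    have e1 : f x = f (z m) := by
      by_contra hne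
      have h2 := hmax (a + 1) (by
        rw [hP]
        refine ⟨fun j => if j ≤ m then z j else x, ?_, m + 1, ?_, ?_⟩
        · intro i j hij
          show (if i ≤ m then z i else x) ≤ if j ≤ m then z j else x
          by_cases hj : j ≤ m
          · rw [if_pos hj, if_pos (hij.trans hj)]
            exact hz hij
          · rw [if_neg hj]
            by_cases hi : i ≤ m
            · rw [if_pos hi]
              exact (hz hi).trans hm
            · rw [if_neg hi]
        · show (if m + 1 ≤ m then z (m + 1) else x) ≤ x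
          rw [if_neg (by omega)]
        · rw [changes_succ, changes_congr f _ z m fun j hj => if_pos hj, h1]
          rw [if_neg (by omega : ¬ m + 1 ≤ m), if_pos le_rfl, if_pos hne])
      omega
    have e2 : f (z 0) = f fun _ => false := by
      by_contra hne
      have h2 := hmax (a + 1) (by
        rw [hP]
        refine ⟨fun j => if j = 0 then (fun _ => false) else z (j - 1), ?_, m + 1, ?_, ?_⟩
        · intro i j hij
          show (if i = 0 then (fun _ => false) else z (i - 1)) ≤
            if j = 0 then (fun _ => false) else z (j - 1)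
          by_cases hi : i = 0
          · rw [if_pos hi]
            intro _
            exact Bool.false_le _
          · rw [if_neg hi, if_neg (by omega)]
            exact hz (by omega)
        · show (if m + 1 = 0 then (fun _ => false) else z (m + 1 - 1)) ≤ x
          rw [if_neg (by omega), Nat.add_sub_cancel]
          exact hm
        · rw [changes_shift, h1, if_pos hne])
      omega
    rw [e1, e2]
  have h5 : decide (Odd a) = decide (f x ≠ f fun _ => false) := by
    rw [decide_eq_decide]
    exact key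
  rw [h5]
  cases f x <;> cases (f fun _ => false) <;> simp

end Pool.Agent.X245.GEN
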