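import Pool.Agent.X230.FS.Walsh
import Pool.Agent.X245.GEN.Neg

set_option autoImplicit false

/-!
# Low-degree approximation, and bounds with logarithms
-/

namespace Pool.Agent.X245.GEN

open Finset DomAC0 Pool.Agent.X246.ACR Pool.Agent.Y601 Pool.Agent.H963J Pool.Agent.X230.FS

open scoped Classical

section

variable {N : ℕ}

theorem chi_flip (i : Fin N) (x : Fin N → Bool) (T : Finset (Fin N)) :
    H963J.chi (SSE.flip i x) T = (if i ∈ T then -1 else 1) * H963J.chi x T := by
  unfold H963J.chi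
  by_cases h : i ∈ T
  · rw [if_pos h, ← mul_prod_erase T _ h, ← mul_prod_erase T _ h]
    have h1 : ∏ t ∈ T.erase i, H963J.sg (SSE.flip i x t) = ∏ t ∈ T.erase i, H963J.sg (x t) := by
      refine prod_congr rfl fun t ht => ?_
      have : t ≠ i := ne_of_mem_erase ht
      unfold SSE.flip
      rw [Function.update_of_ne this]
    have h2 : H963J.sg (SSE.flip i x i) = -H963J.sg (x i) := by
      unfold SSE.flip
      rw [Function.update_self]
      cases x i <;> simp [H963J.sg]
    rw [h1, h2]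
    ring
  · rw [if_neg h, one_mul]
    refine prod_congr rfl fun t ht => ?_
    have : t ≠ i := fun h' => h (h' ▸ ht)
    unfold SSE.flip
    rw [Function.update_of_ne this]

theorem hat_diff (e : (Fin N → Bool) → ℝ) (i : Fin N) (T : Finset (Fin N)) :
    hat (fun x => (e x - e (SSE.flip i x)) / 2) T = if i ∈ T then hat e T else 0 := by
  unfold hat
  have h1 : ∑ x, (e x - e (SSE.flip i x)) / 2 * H963J.chi x T =
      (∑ x, e x * H963J.chi x T) / 2 - (∑ x, e (SSE.flip i x) * H963J.chi x T) / 2 := by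
    rw [sum_div, sum_div, ← sum_sub_distrib]
    exact sum_congr rfl fun x _ => by ring
  have h2 : ∑ x, e (SSE.flip i x) * H963J.chi x T =
      (if i ∈ T then -1 else 1) * ∑ x, e x * H963J.chi x T := by
    rw [← sum_flip i fun x => e (SSE.flip i x) * H963J.chi x T, mul_sum]
    refine sum_congr rfl fun x _ => ?_
    rw [SSE.flip_flip, chi_flip]
    ring
  rw [h1, h2]
  split_ifs <;> ring

/-- The average sensitivity is the total influence. -/
theorem influence (f : (Fin N → Bool) → Bool) :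
    ∑ T : Finset (Fin N), (T.card : ℝ) * hat (fun x => H963J.sg (f x)) T ^ 2 = avgSens f := by
  have h1 : ∀ i : Fin N, ∑ T : Finset (Fin N), (if i ∈ T then hat (fun x => H963J.sg (f x)) T ^ 2 else 0) =
      (∑ x : Fin N → Bool, if f (SSE.flip i x) ≠ f x then (1 : ℝ) else 0) / 2 ^ N := by
    intro i
    have h2 := parseval (fun x => ((fun x => H963J.sg (f x)) x - (fun x => H963J.sg (f x)) (SSE.flip i x)) / 2)
    simp_rw [hat_diff (fun x => H963J.sg (f x)) i] at h2
    have h3 : ∀ T : Finset (Fin N), (if i ∈ T then hat (fun x => H963J.sg (f x)) T else 0) ^ 2 =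
        if i ∈ T then hat (fun x => H963J.sg (f x)) T ^ 2 else 0 := by
      intro T
      split_ifs
      · rfl
      · norm_num
    simp_rw [h3] at h2
    rw [h2]
    congr 1
    refine sum_congr rfl fun x _ => ?_
    show ((H963J.sg (f x) - H963J.sg (f (SSE.flip i x))) / 2) ^ 2 = _
    cases f x <;> cases f (SSE.flip i x) <;> norm_num [H963J.sg]
  have h2 : ∑ T : Finset (Fin N), (T.card : ℝ) * hat (fun x => H963J.sg (f x)) T ^ 2 =
      ∑ i : Fin N, ∑ T : Finset (Fin N), (if i ∈ T then hat (fun x => H963J.sg (f x)) T ^ 2 else 0) := by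
    rw [sum_comm]
    refine sum_congr rfl fun T _ => ?_
    rw [← sum_filter, sum_const, nsmul_eq_mul]
    congr 2
    congr 1
    ext i
    simp
  rw [h2, sum_congr rfl fun i _ => h1 i, ← sum_div]
  unfold avgSens
  congr 1
  rw [sum_comm]
  refine sum_congr rfl fun x _ => ?_
  rw [card_filter]
  push_cast
  rfl

/-- A function with small average sensitivity is the sign of a polynomial of low degree at most
inputs. -/
theorem low_degree (f : (Fin N → Bool) → Bool) (k : ℕ) (hk : 1 ≤ k) :
    ∃ c : Finset (Fin N) → ℝ, (∀ T, k ≤ T.card → c T = 0) ∧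
      ((univ.filter fun x : Fin N → Bool => H963J.sg (f x) * ∑ T, c T * ∏ i ∈ T, H963J.sg (x i) ≤ 0).card : ℝ) ≤
        avgSens f / k * 2 ^ N := by
  obtain ⟨e, he⟩ : ∃ e : (Fin N → Bool) → ℝ, e = fun x => H963J.sg (f x) := ⟨_, rfl⟩
  refine ⟨fun T => if k ≤ T.card then 0 else hat e T, fun T hT => if_pos hT, ?_⟩
  obtain ⟨g, hg⟩ : ∃ g : (Fin N → Bool) → ℝ, g = fun x =>
      ∑ T, (if k ≤ T.card then 0 else hat e T) * H963J.chi x T := ⟨_, rfl⟩
  have h1 : ∀ x, e x - g x = ∑ T, (if k ≤ T.card then hat e T else 0) * H963J.chi x T := by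
    intro x
    rw [expand e x, hg]
    show ∑ T, hat e T * H963J.chi x T -
      ∑ T, (if k ≤ T.card then 0 else hat e T) * H963J.chi x T = _
    rw [← sum_sub_distrib]
    refine sum_congr rfl fun T _ => ?_
    split_ifs <;> ring
  -- the coefficients of the difference
  have h2 : ∀ T, hat (fun x => e x - g x) T = if k ≤ T.card then hat e T else 0 := by
    intro T
    have h3 : ∀ x, (fun x => e x - g x) x * H963J.chi x T =
        ∑ U, (if k ≤ U.card then hat e U else 0) * (H963J.chi x U * H963J.chi x T) := by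
      intro x
      show (e x - g x) * H963J.chi x T = _
      rw [h1 x, sum_mul]
      exact sum_congr rfl fun U _ => by ring
    unfold hat
    rw [sum_congr rfl fun x _ => h3 x, sum_comm]
    have h4 : ∀ U : Finset (Fin N), ∑ x : Fin N → Bool,
        (if k ≤ U.card then hat e U else 0) * (H963J.chi x U * H963J.chi x T) =
        if U = T then (if k ≤ U.card then hat e U else 0) * 2 ^ N else 0 := by
      intro U
      rw [← mul_sum]
      have h5 : ∑ x : Fin N → Bool, H963J.chi x U * H963J.chi x T =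
          if U = T then (2 : ℝ) ^ N else 0 := by
        by_cases hUT : U = T
        · subst hUT
          rw [if_pos rfl]
          have : ∀ x : Fin N → Bool, H963J.chi x U * H963J.chi x U = 1 := fun x => by
            rw [← sq]
            exact chi_sq x U
          rw [sum_congr rfl fun x _ => this x, sum_const, card_univ, Fintype.card_fun,
            Fintype.card_bool, Fintype.card_fin]
          simp
        · rw [if_neg hUT]
          obtain ⟨i, hi⟩ : ∃ i, i ∈ symmDiff U T := by
            by_contra hcon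
            push Not at hcon
            apply hUT
            have := eq_empty_of_forall_notMem hcon
            rwa [← bot_eq_empty, symmDiff_eq_bot] at this
          have h6 : ∑ x : Fin N → Bool, H963J.chi x U * H963J.chi x T =
              -∑ x : Fin N → Bool, H963J.chi x U * H963J.chi x T := by
            conv_lhs => rw [← sum_flip i fun x => H963J.chi x U * H963J.chi x T]
            rw [← sum_neg_distrib]
            refine sum_congr rfl fun x _ => ?_
            rw [chi_mul, chi_mul, chi_flip, if_pos hi]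
            ring
          linarith
      rw [h5]
      split_ifs <;> simp
    rw [sum_congr rfl fun U _ => h4 U, sum_ite_eq' univ T, if_pos (mem_univ _)]
    have : (2 : ℝ) ^ N ≠ 0 := by positivity
    field_simp
    unfold hat
    rfl
  have h3 := parseval (fun x => e x - g x)
  simp_rw [h2] at h3
  have hk0 : (0 : ℝ) < k := by exact_mod_cast hk
  have h4 : ∑ T : Finset (Fin N), (if k ≤ T.card then hat e T else 0) ^ 2 ≤ avgSens f / k := by
    rw [← influence f, ← he, sum_div]
    refine sum_le_sum fun T _ => ?_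
    split_ifs with h
    · rw [le_div_iff₀ hk0, mul_comm]
      have : (k : ℝ) ≤ T.card := by exact_mod_cast h
      exact mul_le_mul_of_nonneg_right this (sq_nonneg _)
    · have : (0 : ℝ) ≤ T.card * hat e T ^ 2 / k := by positivity
      simpa using this
  rw [h3] at h4
  have h2N : (0 : ℝ) < 2 ^ N := by positivity
  rw [div_le_iff₀ h2N] at h4
  refine le_trans ?_ h4
  rw [card_filter]
  push_cast
  refine sum_le_sum fun x _ => ?_
  split_ifs with h
  · have h5 : e x * g x ≤ 0 := by
      rw [he, hg]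
      exact h
    have h6 : e x ^ 2 = 1 := by
      rw [he]
      exact sg_sq _
    show (1 : ℝ) ≤ (e x - g x) ^ 2
    nlinarith [sq_nonneg (g x)]
  · positivity

end

section

variable {N : ℕ} {R K L : Type} [Fintype R]

/-- A logarithm for the switching lemma. -/
theorem exists_s (A : ℝ) (hA : 0 ≤ A) : ∃ s : ℕ, 1 ≤ s ∧ A ≤ 2 ^ s ∧
    (s : ℝ) ≤ Real.logb 2 (2 * (A + 1)) := by
  have h1 : Real.logb 2 (2 * (A + 1)) = 1 + Real.logb 2 (A + 1) := by
    rw [Real.logb_mul (by norm_num) (by linarith), Real.logb_self_eq_one (by norm_num)]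
  have h2 : 0 ≤ Real.logb 2 (A + 1) := Real.logb_nonneg (by norm_num) (by linarith)
  refine ⟨⌊Real.logb 2 (2 * (A + 1))⌋₊, ?_, ?_, ?_⟩
  · apply Nat.le_floor
    rw [h1]
    push_cast
    linarith
  · have h3 := Nat.lt_floor_add_one (Real.logb 2 (2 * (A + 1)))
    rw [h1] at h3
    have h4 : Real.logb 2 (A + 1) < ⌊Real.logb 2 (2 * (A + 1))⌋₊ := by
      rw [h1]
      linarith
    rw [Real.logb_lt_iff_lt_rpow (by norm_num) (by linarith), Real.rpow_natCast] at h4
    linarith
  · exact Nat.floor_le (by rw [h1]; linarith)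

/-- Circuits of small depth, with a logarithm. -/
theorem ac0_log {sat : L → K → Prop} {ε δ : ℝ} (hε : 0 ≤ ε) (hδ : 0 ≤ δ) (hεδ : ε + δ < 1)
    (f : (Fin N → Bool) → Bool)
    (C : Circuit (Fin N)) {b : ℕ} (hb : 1 ≤ b) (out : R → Fin b → Fin N ⊕ Fin C.size)
    (dec : R → (Fin b → Bool) → Option K) (h S : ℕ) (hh : ∀ r j, C.nodeDepth (out r j) ≤ h)
    (hS : C.size ≤ S) :
    (1 - ε - δ) * rightSens sat ε δ f (inst C out dec) ≤
      b * (24 * Real.logb 2 (2 * (h * S * N + 1))) ^ (h + 1) := by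
  obtain ⟨s, hs1, hs2, hs3⟩ := exists_s (h * S * N : ℝ) (by positivity)
  have h1 : (h : ℝ) * C.size * N ≤ 2 ^ s := by
    refine le_trans ?_ hs2
    have h2 : ((C.size : ℕ) : ℝ) ≤ S := by exact_mod_cast hS
    exact mul_le_mul_of_nonneg_right (mul_le_mul_of_nonneg_left h2 (Nat.cast_nonneg _))
      (Nat.cast_nonneg _)
  refine (ac0_gen hε hδ hεδ f C hb out dec h hh hs1 h1).trans ?_
  refine mul_le_mul_of_nonneg_left ?_ (Nat.cast_nonneg _)
  refine pow_le_pow_left₀ (by positivity) ?_ _
  linarith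

/-- Randomised reductions computed by circuits of small depth, right for most pairs. -/
theorem ac0_most {sat : L → K → Prop} {ε δ η : ℝ} (hε : 0 ≤ ε) (hδ : 0 ≤ δ) (hεδ : ε + δ < 1)
    {Ω : Type} [Fintype Ω] [Nonempty Ω]
    (f : (Fin N → Bool) → Bool)
    (C : Ω → Circuit (Fin N)) {b : ℕ} (hb : 1 ≤ b) (out : ∀ ω, R → Fin b → Fin N ⊕ Fin (C ω).size)
    (dec : Ω → R → (Fin b → Bool) → Option K) (h S : ℕ)
    (hh : ∀ ω r j, (C ω).nodeDepth (out ω r j) ≤ h) (hS : ∀ ω, (C ω).size ≤ S)
    (hA : (1 - η) * (2 ^ N * Fintype.card Ω) ≤ ((univ.filter fun p : Ω × (Fin N → Bool) =>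
      Right sat ε δ (f p.2) (inst (C p.1) (out p.1) (dec p.1) p.2)).card : ℝ)) :
    (1 - ε - δ) * (avgSens f - 2 * η * N) ≤
      b * (24 * Real.logb 2 (2 * (h * S * N + 1))) ^ (h + 1) := by
  obtain ⟨ω, hω⟩ := exists_index (fun ω x => Right sat ε δ (f x)
      (inst (C ω) (out ω) (dec ω) x)) (1 / 2 - η) (by
        rw [show 1 / 2 + (1 / 2 - η) = 1 - η by ring]
        convert hA)
  have h1 := rightSens_most sat ε δ (1 / 2 - η) f (inst (C ω) (out ω) (dec ω)) (by convert hω)
  have h2 := ac0_log (sat := sat) hε hδ hεδ f (C ω) hb (out ω) (dec ω) h S (hh ω) (hS ω)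
  refine le_trans ?_ h2
  refine mul_le_mul_of_nonneg_left ?_ (by linarith)
  linarith

/-- The reduction does not lower the average sensitivity. -/
theorem bits_most {sat : L → K → Prop} {ε δ κ η σ : ℝ} (hε : 0 ≤ ε) (hδ : 0 ≤ δ)
    (hεδ : ε + δ < 1) (hκ : 0 ≤ κ) {Ω : Type} [Fintype Ω] [Nonempty Ω] (hη : η < 1)
    (f : (Fin N → Bool) → Bool) {b : ℕ} (F : Ω → R → Fin b → (Fin N → Bool) → Bool)
    (dec : Ω → R → (Fin b → Bool) → Option K) (hσ : ∀ ω r j, avgSens (F ω r j) ≤ σ)
    (hA : (1 - η) * (2 ^ N * Fintype.card Ω) ≤ ((univ.filter fun p : Ω × (Fin N → Bool) =>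
      Right sat ε δ (f p.2) (fun r => dec p.1 r fun j => F p.1 r j p.2) ∧
        κ * Fintype.card R ≤ total (fun r => dec p.1 r fun j => F p.1 r j p.2)).card : ℝ)) :
    (1 - ε - δ) * κ * (avgSens f - 2 * η * N) ≤ b * σ := by
  obtain ⟨ω, hω⟩ := exists_index (fun ω x => Right sat ε δ (f x)
    (fun r => dec ω r fun j => F ω r j x) ∧
      κ * Fintype.card R ≤ total (fun r => dec ω r fun j => F ω r j x)) (1 / 2 - η) (by
        rw [show 1 / 2 + (1 / 2 - η) = 1 - η by ring]
        convert hA)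
  rw [show 1 / 2 + (1 / 2 - η) = 1 - η by ring] at hω
  obtain ⟨Y, hY⟩ : ∃ Y : (Fin N → Bool) → R → Option K,
      Y = fun x r => dec ω r fun i => F ω r i x := ⟨_, rfl⟩
  obtain ⟨A, hAd⟩ : ∃ A : (Fin N → Bool) → Prop, A = fun x =>
      Right sat ε δ (f x) (Y x) ∧ κ * Fintype.card R ≤ total (Y x) := ⟨_, rfl⟩
  have hA' : (1 - η) * 2 ^ N ≤ ((univ.filter fun x => A x).card : ℝ) := by
    rw [hAd, hY]
    convert hω
  have hR' : (0 : ℝ) < Fintype.card R := by
    have h1 : (0 : ℝ) < (1 - η) * 2 ^ N := mul_pos (by linarith) (by positivity)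
    obtain ⟨x, hx⟩ := card_pos.1 (Nat.cast_pos.1 (h1.trans_le hA'))
    have h2 := (mem_filter.1 hx).2
    rw [hAd] at h2
    have h4 := h2.1.1
    unfold total at h4
    exact_mod_cast lt_of_lt_of_le Nat.one_pos (h4.trans (card_le_univ _))
  obtain ⟨w, hw⟩ : ∃ w : (Fin N → Bool) → ℝ, w = fun x => if A x then (0 : ℝ) else 1 := ⟨_, rfl⟩
  have hwsum : ∑ x, w x ≤ η * 2 ^ N := by
    have h1 : ∀ x, w x = 1 - (if A x then (1 : ℝ) else 0) := by
      intro x
      rw [hw]
      show (if A x then (0 : ℝ) else 1) = _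
      split_ifs <;> norm_num
    rw [sum_congr rfl fun x _ => h1 x, sum_sub_distrib, sum_const, card_univ, Fintype.card_fun,
      Fintype.card_bool, Fintype.card_fin, nsmul_eq_mul, mul_one]
    have h2 : ∑ x, (if A x then (1 : ℝ) else 0) = ((univ.filter fun x => A x).card : ℝ) := by
      rw [card_filter]; push_cast; rfl
    rw [h2]
    push_cast
    linarith
  have h2 : ∀ i : Fin N, ∑ x, w (SSE.flip i x) = ∑ x, w x := fun i => sum_flip i w
  have h0 : 0 ≤ (1 - ε - δ) * (κ * Fintype.card R) := by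
    have : 0 ≤ 1 - ε - δ := by linarith
    positivity
  have h3 : ∀ (i : Fin N) (x : Fin N → Bool), (1 - ε - δ) * (κ * Fintype.card R) *
      ((if f (SSE.flip i x) ≠ f x then (1 : ℝ) else 0) - w x - w (SSE.flip i x)) ≤
      ((univ.filter fun r => Y (SSE.flip i x) r ≠ Y x r).card : ℝ) := by
    intro i x
    by_cases hg : f (SSE.flip i x) ≠ f x ∧ A x ∧ A (SSE.flip i x)
    · obtain ⟨hne, hx, hy⟩ := hg
      have e1 : w x = 0 := by rw [hw]; exact if_pos hx
      have e2 : w (SSE.flip i x) = 0 := by rw [hw]; exact if_pos hy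
      rw [if_pos hne, e1, e2, sub_zero, sub_zero, mul_one]
      rw [hAd] at hx hy
      obtain ⟨⟨-, ha1, ha2⟩, ha3⟩ := hx
      obtain ⟨⟨-, hb1, hb2⟩, hb3⟩ := hy
      cases h : f x
      · have h2 : f (SSE.flip i x) = true := by
          rw [h] at hne
          exact Bool.eq_true_of_not_eq_false hne
        refine (pair_ne hε hδ hεδ (hb1 h2) (ha2 h) hb3 ha3).trans ?_
        simp only [ne_comm]
        exact le_rfl
      · have h2 : f (SSE.flip i x) = false := by
          rw [h] at hne
          exact Bool.eq_false_of_not_eq_true hne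
        exact pair_ne hε hδ hεδ (ha1 h) (hb2 h2) ha3 hb3
    · have h4 : (if f (SSE.flip i x) ≠ f x then (1 : ℝ) else 0) - w x - w (SSE.flip i x) ≤ 0 := by
        rw [hw]
        show (if f (SSE.flip i x) ≠ f x then (1 : ℝ) else 0) - (if A x then (0 : ℝ) else 1) -
          (if A (SSE.flip i x) then (0 : ℝ) else 1) ≤ 0
        by_cases ha : f (SSE.flip i x) ≠ f x <;> by_cases hb : A x <;>
          by_cases hc : A (SSE.flip i x)
        · exact absurd ⟨ha, hb, hc⟩ hg
        all_goals simp [ha, hb, hc]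
      exact (mul_nonpos_of_nonneg_of_nonpos h0 h4).trans (Nat.cast_nonneg _)
  have h4 : ∑ i : Fin N, ∑ x, (1 - ε - δ) * (κ * Fintype.card R) *
      ((if f (SSE.flip i x) ≠ f x then (1 : ℝ) else 0) - w x - w (SSE.flip i x)) ≤
      ∑ i : Fin N, ∑ x, ((univ.filter fun r => Y (SSE.flip i x) r ≠ Y x r).card : ℝ) :=
    sum_le_sum fun i _ => sum_le_sum fun x _ => h3 i x
  have hav : ∀ g : (Fin N → Bool) → Bool, avgSens g * 2 ^ N = ∑ i : Fin N, ∑ x : Fin N → Bool,
      (if g (SSE.flip i x) ≠ g x then (1 : ℝ) else 0) := by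
    intro g
    unfold avgSens
    rw [div_mul_cancel₀ _ (by positivity), sum_comm]
    refine sum_congr rfl fun x _ => ?_
    rw [card_filter]
    push_cast
    rfl
  have h5 : ∑ i : Fin N, ∑ x, (1 - ε - δ) * (κ * Fintype.card R) *
      ((if f (SSE.flip i x) ≠ f x then (1 : ℝ) else 0) - w x - w (SSE.flip i x)) =
      (1 - ε - δ) * (κ * Fintype.card R) * (avgSens f * 2 ^ N - 2 * N * ∑ x, w x) := by
    have h7 : ∀ i : Fin N, ∑ x, (1 - ε - δ) * (κ * Fintype.card R) *
        ((if f (SSE.flip i x) ≠ f x then (1 : ℝ) else 0) - w x - w (SSE.flip i x)) =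
        (1 - ε - δ) * (κ * Fintype.card R) *
          (∑ x, (if f (SSE.flip i x) ≠ f x then (1 : ℝ) else 0) - 2 * ∑ x, w x) := by
      intro i
      rw [← mul_sum, sum_sub_distrib, sum_sub_distrib, h2 i]
      ring
    rw [sum_congr rfl fun i _ => h7 i, ← mul_sum, sum_sub_distrib, hav f, sum_const, card_univ,
      Fintype.card_fin, nsmul_eq_mul]
    ring
  rw [h5] at h4
  have h6 : ∑ i : Fin N, ∑ x, ((univ.filter fun r => Y (SSE.flip i x) r ≠ Y x r).card : ℝ) ≤
      ∑ r, ∑ j, ∑ i : Fin N, ∑ x, (if F ω r j (SSE.flip i x) ≠ F ω r j x then (1 : ℝ) else 0) := by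
    have h7 : ∀ (i : Fin N) (x : Fin N → Bool),
        ((univ.filter fun r => Y (SSE.flip i x) r ≠ Y x r).card : ℝ) ≤
        ∑ r, ∑ j, (if F ω r j (SSE.flip i x) ≠ F ω r j x then (1 : ℝ) else 0) := by
      intro i x
      rw [card_filter]
      push_cast
      refine sum_le_sum fun r _ => ?_
      split_ifs with hne
      · obtain ⟨j, hj⟩ : ∃ j, F ω r j (SSE.flip i x) ≠ F ω r j x := by
          by_contra hcon
          push Not at hcon
          apply hne
          rw [hY]
          show dec ω r _ = dec ω r _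
          congr 1
          exact funext hcon
        calc (1 : ℝ) = if F ω r j (SSE.flip i x) ≠ F ω r j x then (1 : ℝ) else 0 := by
              rw [if_pos hj]
          _ ≤ _ := single_le_sum (f := fun j => if F ω r j (SSE.flip i x) ≠ F ω r j x then
              (1 : ℝ) else 0) (fun j _ => by split_ifs <;> norm_num) (mem_univ j)
      · exact sum_nonneg fun j _ => by split_ifs <;> norm_num
    refine (sum_le_sum fun i _ => sum_le_sum fun x _ => h7 i x).trans (le_of_eq ?_)
    calc _ = ∑ i : Fin N, ∑ r, ∑ x, ∑ j,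
          (if F ω r j (SSE.flip i x) ≠ F ω r j x then (1 : ℝ) else 0) :=
          sum_congr rfl fun i _ => sum_comm
      _ = ∑ r, ∑ i : Fin N, ∑ x, ∑ j,
          (if F ω r j (SSE.flip i x) ≠ F ω r j x then (1 : ℝ) else 0) := sum_comm
      _ = ∑ r, ∑ i : Fin N, ∑ j, ∑ x,
          (if F ω r j (SSE.flip i x) ≠ F ω r j x then (1 : ℝ) else 0) :=
          sum_congr rfl fun r _ => sum_congr rfl fun i _ => sum_comm
      _ = _ := sum_congr rfl fun r _ => sum_comm
  have h7 : ∑ r, ∑ j, ∑ i : Fin N, ∑ x,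
      (if F ω r j (SSE.flip i x) ≠ F ω r j x then (1 : ℝ) else 0) ≤
      ∑ _r : R, ∑ _j : Fin b, σ * 2 ^ N := by
    refine sum_le_sum fun r _ => sum_le_sum fun j _ => ?_
    rw [← hav]
    exact mul_le_mul_of_nonneg_right (hσ ω r j) (by positivity)
  rw [sum_const, sum_const, card_univ, card_univ, Fintype.card_fin, nsmul_eq_mul,
    nsmul_eq_mul] at h7
  have hN : (0 : ℝ) ≤ N := Nat.cast_nonneg _
  have h8 : (1 - ε - δ) * (κ * Fintype.card R) * ((avgSens f - 2 * η * N) * 2 ^ N) ≤
      (1 - ε - δ) * (κ * Fintype.card R) * (avgSens f * 2 ^ N - 2 * N * ∑ x, w x) := by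
    refine mul_le_mul_of_nonneg_left ?_ h0
    have := mul_le_mul_of_nonneg_left hwsum (by positivity : (0 : ℝ) ≤ 2 * N)
    linarith
  have h9 : ((1 - ε - δ) * κ * (avgSens f - 2 * η * N)) * (Fintype.card R * 2 ^ N) ≤
      (b * σ) * (Fintype.card R * 2 ^ N) := by
    linarith
  exact le_of_mul_le_mul_right h9 (by positivity)

/-- The average sensitivity of a node of a circuit of small depth. -/
theorem ac0_avgSens (C : Circuit (Fin N)) (v : Fin N ⊕ Fin C.size) (h S : ℕ)
    (hv : C.nodeDepth v ≤ h) (hS : C.size ≤ S) :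
    avgSens (fun x => C.nodeVal x v) ≤ (24 * Real.logb 2 (2 * (h * S * N + 1))) ^ (h + 1) := by
  obtain ⟨s, hs1, hs2, hs3⟩ := exists_s (h * S * N : ℝ) (by positivity)
  have h1 : (h : ℝ) * C.size * N ≤ 2 ^ s := by
    refine le_trans ?_ hs2
    have h2 : ((C.size : ℕ) : ℝ) ≤ S := by exact_mod_cast hS
    exact mul_le_mul_of_nonneg_right (mul_le_mul_of_nonneg_left h2 (Nat.cast_nonneg _))
      (Nat.cast_nonneg _)
  have h3 := Pool.Agent.X245.PFM.ac0_tsens C v h hv hs1 h1
  have h4 : avgSens (fun x => C.nodeVal x v) ≤ (24 * s) ^ (h + 1) := by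
    unfold avgSens
    rw [div_le_iff₀ (by positivity), mul_comm]
    exact h3
  refine h4.trans (pow_le_pow_left₀ (by positivity) ?_ _)
  linarith

/-- The average sensitivity of a formula. -/
theorem form_avgSens (F : DeMorgan (Fin N)) : avgSens (fun x => F.eval x) ≤ √F.size := by
  unfold avgSens
  rw [div_le_iff₀ (by positivity), mul_comm]
  have h1 := sum_sens_le F
  rw [Fintype.card_fin] at h1
  exact h1

end

end Pool.Agent.X245.GEN
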