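import Pool.Agent.X245.GEN.Bs
import Pool.Agent.X245.GEN.Neg

set_option autoImplicit false

/-!
# Reductions from arbitrary languages, for any kind of output in which right outputs for different
answers differ in many entries
-/

namespace Pool.Agent.X245.GEN

open Finset DomAC0 Pool.Agent.Y601 Pool.Agent.X246.ACR

open scoped Classical

section

variable {N : ℕ} {R α : Type} [Fintype R]

/-- Entries that are determined by few bits. -/
theorem bs_abs {c η : ℝ} (hc0 : 0 ≤ c) (hR : 0 < Fintype.card R) {Ω : Type} [Fintype Ω]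
    [Nonempty Ω] (t : ℕ)
    (f : (Fin N → Bool) → Bool) (Y : Ω → (Fin N → Bool) → R → α) (A : Ω → (Fin N → Bool) → Prop)
    (hpair : ∀ ω x y, A ω x → A ω y → f x ≠ f y →
      c * Fintype.card R ≤ ((univ.filter fun r => Y ω y r ≠ Y ω x r).card : ℝ))
    (hY : ∀ ω r x, ∃ D : Finset (Fin N), D.card ≤ t ∧ ∀ y, (∀ i ∈ D, y i = x i) →
      Y ω y r = Y ω x r)
    (hp : ∀ x, (1 - η) * Fintype.card Ω ≤ ((univ.filter fun ω => A ω x).card : ℝ))
    (x : Fin N → Bool) (m : ℕ) (B : Fin m → Finset (Fin N))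
    (hB : ∀ i j, i ≠ j → Disjoint (B i) (B j)) (hs : ∀ j, f (flips (B j) x) ≠ f x) :
    c * (1 - 2 * η) * m ≤ t := by
  have hc : (0 : ℝ) < Fintype.card Ω := by exact_mod_cast Fintype.card_pos
  have hR' : (0 : ℝ) < Fintype.card R := by exact_mod_cast hR
  have hp' : ∀ x, (1 - η) * Fintype.card Ω ≤ ∑ ω, (if A ω x then (1 : ℝ) else 0) := by
    intro x
    have h1 := hp x
    rw [card_filter] at h1
    push_cast at h1
    exact h1
  -- few blocks change an entry
  have h1 : ∀ ω r, ((univ.filter fun j => Y ω (flips (B j) x) r ≠ Y ω x r).card) ≤ t := by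
    intro ω r
    obtain ⟨D, hD, h2⟩ := hY ω r x
    refine le_trans ?_ hD
    have h3 : ∀ j ∈ (univ.filter fun j => Y ω (flips (B j) x) r ≠ Y ω x r),
        ∃ i, i ∈ D ∧ i ∈ B j := by
      intro j hj
      rw [mem_filter] at hj
      by_contra hcon
      push Not at hcon
      apply hj.2
      refine h2 _ fun i hi => ?_
      unfold flips
      rw [if_neg (hcon i hi)]
    have h4 : ∃ g : Fin m → Fin N, ∀ j ∈ (univ.filter fun j => Y ω (flips (B j) x) r ≠ Y ω x r),
        g j ∈ D ∧ g j ∈ B j := by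
      by_cases hN : Nonempty (Fin N)
      · have h5 : ∀ j, ∃ i, j ∈ (univ.filter fun j => Y ω (flips (B j) x) r ≠ Y ω x r) →
            i ∈ D ∧ i ∈ B j := by
          intro j
          by_cases hj : j ∈ (univ.filter fun j => Y ω (flips (B j) x) r ≠ Y ω x r)
          · obtain ⟨i, hi⟩ := h3 j hj
            exact ⟨i, fun _ => hi⟩
          · exact ⟨hN.some, fun h => absurd h hj⟩
        choose g hg using h5
        exact ⟨g, hg⟩
      · by_cases hm0 : m = 0
        · subst hm0
          exact ⟨fun j => j.elim0, fun j => j.elim0⟩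
        · exfalso
          have j0 : Fin m := ⟨0, Nat.pos_of_ne_zero hm0⟩
          apply hs j0
          congr 1
          funext i
          exact absurd ⟨i⟩ hN
    obtain ⟨g, hg⟩ := h4
    refine card_le_card_of_injOn g (fun j hj => (hg j hj).1) ?_
    intro j hj j' hj' hjj
    by_contra hne
    have h6 := hB j j' hne
    rw [disjoint_left] at h6
    exact h6 (hg j hj).2 (hjj ▸ (hg j' hj').2)
  -- right outputs differ in many entries
  have h2 : ∀ ω j, c * Fintype.card R *
      ((if A ω x then (1 : ℝ) else 0) + (if A ω (flips (B j) x) then (1 : ℝ) else 0) - 1) ≤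
      ((univ.filter fun r => Y ω (flips (B j) x) r ≠ Y ω x r).card : ℝ) := by
    intro ω j
    have hnn : 0 ≤ c * Fintype.card R := mul_nonneg hc0 (Nat.cast_nonneg _)
    by_cases hg : A ω x ∧ A ω (flips (B j) x)
    · rw [if_pos hg.1, if_pos hg.2]
      have e1 : (1 : ℝ) + 1 - 1 = 1 := by norm_num
      rw [e1, mul_one]
      exact hpair ω x _ hg.1 hg.2 (hs j).symm
    · have h3 : (if A ω x then (1 : ℝ) else 0) +
          (if A ω (flips (B j) x) then (1 : ℝ) else 0) - 1 ≤ 0 := by
        by_cases ha : A ω x <;> by_cases hb : A ω (flips (B j) x)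
        · exact absurd ⟨ha, hb⟩ hg
        all_goals simp [ha, hb]
      exact (mul_nonpos_of_nonneg_of_nonpos hnn h3).trans (Nat.cast_nonneg _)
  have h3 := sum_le_sum fun ω (_ : ω ∈ (univ : Finset Ω)) =>
    sum_le_sum fun j (_ : j ∈ (univ : Finset (Fin m))) => h2 ω j
  simp_rw [← mul_sum] at h3
  have h4 : ∑ ω, ∑ j : Fin m, ((if A ω x then (1 : ℝ) else 0) +
      (if A ω (flips (B j) x) then (1 : ℝ) else 0) - 1) ≥ m * ((1 - 2 * η) * Fintype.card Ω) := by
    rw [sum_comm]
    have h5 : ∀ j : Fin m, (1 - 2 * η) * Fintype.card Ω ≤ ∑ ω, ((if A ω x then (1 : ℝ) else 0) +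
        (if A ω (flips (B j) x) then (1 : ℝ) else 0) - 1) := by
      intro j
      rw [sum_sub_distrib, sum_add_distrib, sum_const, card_univ, nsmul_eq_mul, mul_one]
      have h6 := hp' x
      have h7 := hp' (flips (B j) x)
      linarith
    have h6 := sum_le_sum fun j (_ : j ∈ (univ : Finset (Fin m))) => h5 j
    rw [sum_const, card_univ, Fintype.card_fin, nsmul_eq_mul] at h6
    exact h6
  have h5 : ∑ ω, ∑ j : Fin m, ((univ.filter fun r => Y ω (flips (B j) x) r ≠ Y ω x r).card : ℝ) ≤
      Fintype.card Ω * (Fintype.card R * t) := by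
    have h6 : ∀ ω, ∑ j : Fin m, ((univ.filter fun r => Y ω (flips (B j) x) r ≠ Y ω x r).card : ℝ) ≤
        Fintype.card R * t := by
      intro ω
      have h7 : ∑ j : Fin m, ((univ.filter fun r => Y ω (flips (B j) x) r ≠ Y ω x r).card : ℝ) =
          ∑ r, ((univ.filter fun j => Y ω (flips (B j) x) r ≠ Y ω x r).card : ℝ) := by
        simp_rw [card_filter]
        push_cast
        rw [sum_comm]
      rw [h7]
      calc _ ≤ ∑ _r : R, (t : ℝ) := sum_le_sum fun r _ => by exact_mod_cast h1 ω r
        _ = _ := by rw [sum_const, card_univ, nsmul_eq_mul]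
    calc _ ≤ ∑ _ω : Ω, (Fintype.card R * t : ℝ) := sum_le_sum fun ω _ => h6 ω
      _ = _ := by rw [sum_const, card_univ, nsmul_eq_mul]
  have h6 : 0 ≤ c * Fintype.card R := mul_nonneg hc0 hR'.le
  have h7 := mul_le_mul_of_nonneg_left h4 h6
  have h8 : (c * (1 - 2 * η) * m) * (Fintype.card Ω * Fintype.card R) ≤
      t * (Fintype.card Ω * Fintype.card R) := by
    calc _ = c * Fintype.card R * (m * ((1 - 2 * η) * Fintype.card Ω)) := by ring
      _ ≤ _ := h7
      _ ≤ _ := h3
      _ ≤ _ := h5
      _ = _ := by ring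
  exact le_of_mul_le_mul_right h8 (by positivity)

/-- Reductions with few negations, along a chain. -/
theorem chain_abs {c η : ℝ} (hc0 : 0 ≤ c) (hR : 0 < Fintype.card R) {Ω : Type} [Fintype Ω]
    [Nonempty Ω] {b t : ℕ} (F : Ω → R → Fin b → (Fin N → Bool) → Bool)
    (hF : ∀ ω r j, NegComp t (F ω r j))
    (dec : Ω → R → (Fin b → Bool) → α) (f : (Fin N → Bool) → Bool)
    (z : ℕ → Fin N → Bool) (hz : Monotone z) (m : ℕ) (A : Ω → (Fin N → Bool) → Prop)
    (hpair : ∀ ω x y, A ω x → A ω y → f x ≠ f y →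
      c * Fintype.card R ≤ ((univ.filter fun r =>
        (dec ω r fun i => F ω r i y) ≠ dec ω r fun i => F ω r i x).card : ℝ))
    (hp : ∀ j ≤ m, (1 - η) * Fintype.card Ω ≤ ((univ.filter fun ω => A ω (z j)).card : ℝ)) :
    c * (1 - 2 * η) * changes f z m ≤ b * (2 ^ (t + 1) - 1) := by
  have hcΩ : (0 : ℝ) < Fintype.card Ω := by exact_mod_cast Fintype.card_pos
  have hR' : (0 : ℝ) < Fintype.card R := by exact_mod_cast hR
  obtain ⟨Y, hY⟩ : ∃ Y : Ω → (Fin N → Bool) → R → α,
      Y = fun ω x r => dec ω r fun i => F ω r i x := ⟨_, rfl⟩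
  have hpair' : ∀ ω x y, A ω x → A ω y → f x ≠ f y →
      c * Fintype.card R ≤ ((univ.filter fun r => Y ω y r ≠ Y ω x r).card : ℝ) := by
    intro ω x y hx hy hxy
    rw [hY]
    exact hpair ω x y hx hy hxy
  have hM : ∀ ω r, ((range m).filter fun j => Y ω (z (j + 1)) r ≠ Y ω (z j) r).card ≤
      b * (2 ^ (t + 1) - 1) := by
    intro ω r
    have h1 : ((range m).filter fun j => Y ω (z (j + 1)) r ≠ Y ω (z j) r) ⊆
        (univ : Finset (Fin b)).biUnion fun i =>
          (range m).filter fun j => F ω r i (z (j + 1)) ≠ F ω r i (z j) := by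
      intro j hj
      rw [mem_filter] at hj
      rw [mem_biUnion]
      by_contra hcon
      push Not at hcon
      apply hj.2
      rw [hY]
      show dec ω r _ = dec ω r _
      congr 1
      funext i
      have := hcon i (mem_univ _)
      rw [mem_filter] at this
      push Not at this
      exact this hj.1
    refine (card_le_card h1).trans (card_biUnion_le.trans ?_)
    calc ∑ i, ((range m).filter fun j => F ω r i (z (j + 1)) ≠ F ω r i (z j)).card ≤
          ∑ _i : Fin b, (2 ^ (t + 1) - 1) := by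
          refine sum_le_sum fun i _ => ?_
          obtain ⟨l, hl, hmem⟩ := hF ω r i
          obtain ⟨K', _, hK, k, d, hk, hd⟩ := hl.det _ hmem
          have h3 : ((range m).filter fun j => F ω r i (z (j + 1)) ≠ F ω r i (z j)).card ≤
              Fintype.card K' := by
            convert det_chain k hk _ d hd z hz m
          omega
      _ = _ := by rw [sum_const, card_univ, Fintype.card_fin, smul_eq_mul]
  have h1 : ∀ ω, ∀ j ∈ range m, c * Fintype.card R *
      ((if f (z (j + 1)) ≠ f (z j) then (1 : ℝ) else 0) * ((if A ω (z j) then (1 : ℝ) else 0) +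
        (if A ω (z (j + 1)) then (1 : ℝ) else 0) - 1)) ≤
      ((univ.filter fun r => Y ω (z (j + 1)) r ≠ Y ω (z j) r).card : ℝ) := by
    intro ω j _
    have hnn : 0 ≤ c * Fintype.card R := mul_nonneg hc0 (Nat.cast_nonneg _)
    by_cases hne : f (z (j + 1)) ≠ f (z j)
    · rw [if_pos hne, one_mul]
      by_cases hg : A ω (z j) ∧ A ω (z (j + 1))
      · rw [if_pos hg.1, if_pos hg.2]
        have e1 : (1 : ℝ) + 1 - 1 = 1 := by norm_num
        rw [e1, mul_one]
        exact hpair' ω _ _ hg.1 hg.2 hne.symm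
      · have h3 : (if A ω (z j) then (1 : ℝ) else 0) +
            (if A ω (z (j + 1)) then (1 : ℝ) else 0) - 1 ≤ 0 := by
          by_cases ha : A ω (z j) <;> by_cases hb : A ω (z (j + 1))
          · exact absurd ⟨ha, hb⟩ hg
          all_goals simp [ha, hb]
        exact (mul_nonpos_of_nonneg_of_nonpos hnn h3).trans (Nat.cast_nonneg _)
    · rw [if_neg hne, zero_mul, mul_zero]
      exact Nat.cast_nonneg _
  have h2 := sum_le_sum fun ω (_ : ω ∈ (univ : Finset Ω)) => sum_le_sum (h1 ω)
  simp_rw [← mul_sum] at h2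
  have h3 : ∑ ω, ∑ j ∈ range m, ((univ.filter fun r => Y ω (z (j + 1)) r ≠ Y ω (z j) r).card : ℝ) ≤
      Fintype.card Ω * (Fintype.card R * (b * (2 ^ (t + 1) - 1))) := by
    have h6 : ∀ ω, ∑ j ∈ range m, ((univ.filter fun r => Y ω (z (j + 1)) r ≠ Y ω (z j) r).card : ℝ) ≤
        Fintype.card R * (b * (2 ^ (t + 1) - 1)) := by
      intro ω
      have h7 : ∑ j ∈ range m, ((univ.filter fun r => Y ω (z (j + 1)) r ≠ Y ω (z j) r).card : ℝ) =
          ∑ r, (((range m).filter fun j => Y ω (z (j + 1)) r ≠ Y ω (z j) r).card : ℝ) := by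
        simp_rw [card_filter]
        push_cast
        rw [sum_comm]
      rw [h7]
      calc _ ≤ ∑ _r : R, (b * (2 ^ (t + 1) - 1) : ℝ) := sum_le_sum fun r _ => by
            have h5 : (((range m).filter fun j => Y ω (z (j + 1)) r ≠ Y ω (z j) r).card : ℝ) ≤
                ((b * (2 ^ (t + 1) - 1) : ℕ) : ℝ) := by exact_mod_cast hM ω r
            refine h5.trans (le_of_eq ?_)
            have : 1 ≤ 2 ^ (t + 1) := Nat.one_le_two_pow
            push_cast [Nat.cast_sub this]
            ring
        _ = _ := by rw [sum_const, card_univ, nsmul_eq_mul]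
    calc _ ≤ ∑ _ω : Ω, (Fintype.card R * (b * (2 ^ (t + 1) - 1)) : ℝ) :=
          sum_le_sum fun ω _ => h6 ω
      _ = _ := by rw [sum_const, card_univ, nsmul_eq_mul]
  have h4 : (1 - 2 * η) * Fintype.card Ω * changes f z m ≤
      ∑ ω, ∑ j ∈ range m, ((if f (z (j + 1)) ≠ f (z j) then (1 : ℝ) else 0) *
        ((if A ω (z j) then (1 : ℝ) else 0) + (if A ω (z (j + 1)) then (1 : ℝ) else 0) - 1)) := by
    rw [sum_comm]
    have h5 : ∀ j ∈ range m, (1 - 2 * η) * Fintype.card Ω *
        (if f (z (j + 1)) ≠ f (z j) then (1 : ℝ) else 0) ≤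
        ∑ ω, ((if f (z (j + 1)) ≠ f (z j) then (1 : ℝ) else 0) *
        ((if A ω (z j) then (1 : ℝ) else 0) + (if A ω (z (j + 1)) then (1 : ℝ) else 0) - 1)) := by
      intro j hj
      rw [mem_range] at hj
      rw [← mul_sum, mul_comm]
      refine mul_le_mul_of_nonneg_left ?_ (by split_ifs <;> norm_num)
      rw [sum_sub_distrib, sum_add_distrib, sum_const, card_univ, nsmul_eq_mul, mul_one]
      have h6 := hp j hj.le
      have h7 := hp (j + 1) hj
      rw [card_filter] at h6 h7
      push_cast at h6 h7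
      linarith
    have h6 := sum_le_sum h5
    rw [← mul_sum] at h6
    have h7 : ∑ j ∈ range m, (if f (z (j + 1)) ≠ f (z j) then (1 : ℝ) else 0) =
        changes f z m := by
      unfold changes
      rw [card_filter]
      push_cast
      rfl
    rw [h7] at h6
    exact h6
  have h6 : 0 ≤ c * Fintype.card R := mul_nonneg hc0 hR'.le
  have h7 := mul_le_mul_of_nonneg_left h4 h6
  have h8 : (c * (1 - 2 * η) * changes f z m) * (Fintype.card Ω * Fintype.card R) ≤
      (b * (2 ^ (t + 1) - 1)) * (Fintype.card Ω * Fintype.card R) := by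
    calc _ = c * Fintype.card R * ((1 - 2 * η) * Fintype.card Ω * changes f z m) := by ring
      _ ≤ _ := h7
      _ ≤ _ := h2
      _ ≤ _ := h3
      _ = _ := by ring
  exact le_of_mul_le_mul_right h8 (by positivity)

/-- Reductions of low average sensitivity. -/
theorem mean_abs {c η a : ℝ} (hc0 : 0 ≤ c) (hR : 0 < Fintype.card R) {s : ℕ}
    (F : R → Fin s → (Fin N → Bool) → Bool) (hF : ∀ r j, avgSens (F r j) ≤ a)
    (dec : R → (Fin s → Bool) → α) (f : (Fin N → Bool) → Bool) (A : (Fin N → Bool) → Prop)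
    (hpair : ∀ x y, A x → A y → f x ≠ f y →
      c * Fintype.card R ≤ ((univ.filter fun r =>
        (dec r fun i => F r i y) ≠ dec r fun i => F r i x).card : ℝ))
    (hA : (1 - η) * 2 ^ N ≤ ((univ.filter fun x => A x).card : ℝ)) :
    c * (avgSens f - 2 * η * N) ≤ s * a := by
  have hR' : (0 : ℝ) < Fintype.card R := by exact_mod_cast hR
  obtain ⟨Y, hY⟩ : ∃ Y : (Fin N → Bool) → R → α,
      Y = fun x r => dec r fun i => F r i x := ⟨_, rfl⟩
  have hpair' : ∀ x y, A x → A y → f x ≠ f y →
      c * Fintype.card R ≤ ((univ.filter fun r => Y y r ≠ Y x r).card : ℝ) := by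
    intro x y hx hy hxy
    rw [hY]
    exact hpair x y hx hy hxy
  obtain ⟨w, hw⟩ : ∃ w : (Fin N → Bool) → ℝ, w = fun x => if A x then (0 : ℝ) else 1 := ⟨_, rfl⟩
  have hwsum : ∑ x, w x ≤ η * 2 ^ N := by
    have h1 : ∀ x, w x = 1 - (if A x then (1 : ℝ) else 0) := by
      intro x
      rw [hw]
      show (if A x then (0 : ℝ) else 1) = _
      split_ifs <;> norm_num
    rw [sum_congr rfl fun x _ => h1 x, sum_sub_distrib, sum_const, card_univ, Fintype.card_fun,
      Fintype.card_bool, Fintype.card_fin, nsmul_eq_mul, mul_one]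
    have h2 : ∑ x, (if A x then (1 : ℝ) else 0) = ((univ.filter fun x => A x).card : ℝ) := by
      rw [card_filter]; push_cast; rfl
    rw [h2]
    push_cast
    linarith
  have h2 : ∀ i : Fin N, ∑ x, w (SSE.flip i x) = ∑ x, w x := fun i => sum_flip i w
  have h0 : 0 ≤ c * Fintype.card R := mul_nonneg hc0 hR'.le
  have h3 : ∀ (i : Fin N) (x : Fin N → Bool), c * Fintype.card R *
      ((if f (SSE.flip i x) ≠ f x then (1 : ℝ) else 0) - w x - w (SSE.flip i x)) ≤
      ((univ.filter fun r => Y (SSE.flip i x) r ≠ Y x r).card : ℝ) := by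
    intro i x
    by_cases hg : f (SSE.flip i x) ≠ f x ∧ A x ∧ A (SSE.flip i x)
    · obtain ⟨hne, hx, hy⟩ := hg
      have e1 : w x = 0 := by rw [hw]; exact if_pos hx
      have e2 : w (SSE.flip i x) = 0 := by rw [hw]; exact if_pos hy
      rw [if_pos hne, e1, e2, sub_zero, sub_zero, mul_one]
      exact hpair' x _ hx hy hne.symm
    · have h4 : (if f (SSE.flip i x) ≠ f x then (1 : ℝ) else 0) - w x - w (SSE.flip i x) ≤ 0 := by
        rw [hw]
        show (if f (SSE.flip i x) ≠ f x then (1 : ℝ) else 0) - (if A x then (0 : ℝ) else 1) -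
          (if A (SSE.flip i x) then (0 : ℝ) else 1) ≤ 0
        by_cases ha : f (SSE.flip i x) ≠ f x <;> by_cases hb : A x <;>
          by_cases hc : A (SSE.flip i x)
        · exact absurd ⟨ha, hb, hc⟩ hg
        all_goals simp [ha, hb, hc]
      exact (mul_nonpos_of_nonneg_of_nonpos h0 h4).trans (Nat.cast_nonneg _)
  have h4 : ∑ i : Fin N, ∑ x, c * Fintype.card R *
      ((if f (SSE.flip i x) ≠ f x then (1 : ℝ) else 0) - w x - w (SSE.flip i x)) ≤
      ∑ i : Fin N, ∑ x, ((univ.filter fun r => Y (SSE.flip i x) r ≠ Y x r).card : ℝ) :=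
    sum_le_sum fun i _ => sum_le_sum fun x _ => h3 i x
  have h5 : ∑ i : Fin N, ∑ x, c * Fintype.card R *
      ((if f (SSE.flip i x) ≠ f x then (1 : ℝ) else 0) - w x - w (SSE.flip i x)) =
      c * Fintype.card R * (avgSens f * 2 ^ N - 2 * N * ∑ x, w x) := by
    have h6 : avgSens f * 2 ^ N = ∑ i : Fin N, ∑ x : Fin N → Bool,
        (if f (SSE.flip i x) ≠ f x then (1 : ℝ) else 0) := by
      unfold avgSens
      rw [div_mul_cancel₀ _ (by positivity), sum_comm]
      refine sum_congr rfl fun x _ => ?_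
      rw [card_filter]
      push_cast
      rfl
    have h7 : ∀ i : Fin N, ∑ x, c * Fintype.card R *
        ((if f (SSE.flip i x) ≠ f x then (1 : ℝ) else 0) - w x - w (SSE.flip i x)) =
        c * Fintype.card R *
          (∑ x, (if f (SSE.flip i x) ≠ f x then (1 : ℝ) else 0) - 2 * ∑ x, w x) := by
      intro i
      rw [← mul_sum, sum_sub_distrib, sum_sub_distrib, h2 i]
      ring
    rw [sum_congr rfl fun i _ => h7 i, ← mul_sum, sum_sub_distrib, h6, sum_const, card_univ,
      Fintype.card_fin, nsmul_eq_mul]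
    ring
  rw [h5] at h4
  have h6 : ∑ i : Fin N, ∑ x, ((univ.filter fun r => Y (SSE.flip i x) r ≠ Y x r).card : ℝ) =
      ∑ r, ∑ x, ((univ.filter fun i => Y (SSE.flip i x) r ≠ Y x r).card : ℝ) := by
    simp_rw [card_filter]
    push_cast
    rw [sum_comm, sum_comm (s := (univ : Finset R))]
    exact sum_congr rfl fun x _ => sum_comm
  rw [h6] at h4
  have hB : ∀ r, ∑ x, ((univ.filter fun i => Y (SSE.flip i x) r ≠ Y x r).card : ℝ) ≤
      s * a * 2 ^ N := by
    intro r
    rw [hY]
    have h1 : ∀ x : Fin N → Bool, ((univ.filter fun i => dec r (fun j => F r j (SSE.flip i x)) ≠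
        dec r (fun j => F r j x)).card : ℝ) ≤
        ∑ j, ((univ.filter fun i => F r j (SSE.flip i x) ≠ F r j x).card : ℝ) := by
      intro x
      have h2 : (univ.filter fun i => dec r (fun j => F r j (SSE.flip i x)) ≠
          dec r (fun j => F r j x)) ⊆ (univ : Finset (Fin s)).biUnion fun j =>
          univ.filter fun i => F r j (SSE.flip i x) ≠ F r j x := by
        intro i hi
        rw [mem_filter] at hi
        rw [mem_biUnion]
        by_contra hcon
        push Not at hcon
        apply hi.2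
        congr 1
        funext j
        have := hcon j (mem_univ _)
        rw [mem_filter] at this
        push Not at this
        exact this (mem_univ _)
      exact_mod_cast (card_le_card h2).trans card_biUnion_le
    refine (sum_le_sum fun x _ => h1 x).trans ?_
    rw [sum_comm]
    calc ∑ j, ∑ x : Fin N → Bool, ((univ.filter fun i => F r j (SSE.flip i x) ≠ F r j x).card : ℝ) ≤
          ∑ _j : Fin s, a * 2 ^ N := by
          refine sum_le_sum fun j _ => ?_
          have h3 := hF r j
          unfold avgSens at h3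
          rw [div_le_iff₀ (by positivity)] at h3
          exact h3
      _ = _ := by
          rw [sum_const, card_univ, Fintype.card_fin, nsmul_eq_mul]
          ring
  have h7 : ∑ r, ∑ x, ((univ.filter fun i => Y (SSE.flip i x) r ≠ Y x r).card : ℝ) ≤
      ∑ _r : R, s * a * 2 ^ N := sum_le_sum fun r _ => hB r
  rw [sum_const, card_univ, nsmul_eq_mul] at h7
  have hN : (0 : ℝ) ≤ N := Nat.cast_nonneg _
  have h8 : c * Fintype.card R * ((avgSens f - 2 * η * N) * 2 ^ N) ≤
      c * Fintype.card R * (avgSens f * 2 ^ N - 2 * N * ∑ x, w x) := by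
    refine mul_le_mul_of_nonneg_left ?_ h0
    have := mul_le_mul_of_nonneg_left hwsum (by positivity : (0 : ℝ) ≤ 2 * N)
    linarith
  have h9 : (c * (avgSens f - 2 * η * N)) * (Fintype.card R * 2 ^ N) ≤
      (s * a) * (Fintype.card R * 2 ^ N) := by
    linarith
  exact le_of_mul_le_mul_right h9 (by positivity)

end

end Pool.Agent.X245.GEN
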