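import Pool.Agent.TH163.AC3.Tree
import Pool.Agent.X245.GEN.Neg

set_option autoImplicit false

/-!
# Block sensitivity and decision trees
-/

namespace Pool.Agent.X245.GEN

open Finset DomAC0 H568R2 Pool.Agent.TH163.AC3 Pool.Agent.X246.ACR

open scoped Classical

section

variable {I : Type} [Fintype I]

/-- the input with the bits in `B` changed -/
noncomputable def flips (B : Finset I) (x : I → Bool) : I → Bool := fun i => if i ∈ B then !(x i) else x i

/-- There are at most `k` disjoint sets of bits whose change changes the value of `f` at `x`. -/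
def BsLe (k : ℕ) (f : (I → Bool) → Bool) (x : I → Bool) : Prop :=
  ∀ (m : ℕ) (B : Fin m → Finset I), (∀ i j, i ≠ j → Disjoint (B i) (B j)) →
    (∀ j, f (flips (B j) x) ≠ f x) → m ≤ k

theorem flips_diff (x y : I → Bool) : flips (univ.filter fun i => y i ≠ x i) x = y := by
  funext i
  unfold flips
  simp only [mem_filter, mem_univ, true_and]
  by_cases h : y i = x i
  · rw [if_neg (not_not.2 h), h]
  · rw [if_pos h]
    revert h
    cases x i <;> cases y i <;> simp

/-- the certificates -/
theorem cert_of_bs {k : ℕ} {f : (I → Bool) → Bool} (hk : ∀ x, BsLe k f x) (x : I → Bool) :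
    ∃ A : Finset I, A.card ≤ k * k ∧ ∀ y, (∀ i ∈ A, y i = x i) → f y = f x := by
  -- families of disjoint minimal blocks
  obtain ⟨P, hP⟩ : ∃ P : ℕ → Prop, P = fun m => ∃ B : Fin m → Finset I,
      (∀ i j, i ≠ j → Disjoint (B i) (B j)) ∧ (∀ j, f (flips (B j) x) ≠ f x) ∧
      ∀ j, ∀ C ⊂ B j, f (flips C x) = f x := ⟨_, rfl⟩
  have hP0 : P 0 := by
    rw [hP]
    exact ⟨fun j => j.elim0, fun i => i.elim0, fun j => j.elim0, fun j => j.elim0⟩
  obtain ⟨m, hm⟩ : ∃ m, m = Nat.findGreatest P k := ⟨_, rfl⟩
  have hPm : P m := by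
    rw [hm]
    exact Nat.findGreatest_spec (Nat.zero_le _) hP0
  have hmax : ∀ c, P c → c ≤ m := by
    intro c hc
    have hc' : c ≤ k := by
      rw [hP] at hc
      obtain ⟨B, h1, h2, _⟩ := hc
      exact hk x c B h1 h2
    rw [hm]
    exact Nat.le_findGreatest hc' hc
  have hmk : m ≤ k := by
    rw [hm]
    exact Nat.findGreatest_le _
  rw [hP] at hPm
  obtain ⟨B, hB1, hB2, hB3⟩ := hPm
  refine ⟨univ.biUnion B, ?_, ?_⟩
  · refine card_biUnion_le.trans ?_
    have h1 : ∀ j, (B j).card ≤ k := by
      intro j
      obtain ⟨e⟩ : Nonempty (Fin (B j).card ≃ B j) := ⟨(B j).equivFin.symm⟩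
      refine hk (flips (B j) x) (B j).card (fun a => {(e a).1}) ?_ ?_
      · intro a b hab
        rw [disjoint_singleton]
        intro h
        exact hab (e.injective (Subtype.ext h))
      · intro a
        have h2 : flips {(e a).1} (flips (B j) x) = flips ((B j).erase (e a).1) x := by
          funext i
          unfold flips
          simp only [mem_singleton, mem_erase]
          by_cases hi : i = (e a).1
          · subst hi
            simp
          · simp [hi]
        rw [h2, hB3 j _ (erase_ssubset (e a).2)]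
        exact (hB2 j).symm
    calc ∑ j, (B j).card ≤ ∑ _j : Fin m, k := sum_le_sum fun j _ => h1 j
      _ = m * k := by rw [sum_const, card_univ, Fintype.card_fin, smul_eq_mul]
      _ ≤ k * k := Nat.mul_le_mul_right _ hmk
  · intro y hy
    by_contra hne
    -- a minimal block in the difference
    obtain ⟨D, hD⟩ : ∃ D : Finset I, D = univ.filter fun i => y i ≠ x i := ⟨_, rfl⟩
    have hDf : f (flips D x) ≠ f x := by
      rw [hD, flips_diff]
      exact hne
    obtain ⟨C, hC1, hC2⟩ : ∃ C, C ⊆ D ∧ f (flips C x) ≠ f x ∧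
        ∀ C' ⊂ C, f (flips C' x) = f x := by
      have hfin : (D.powerset.filter fun C => f (flips C x) ≠ f x).Nonempty :=
        ⟨D, mem_filter.2 ⟨mem_powerset.2 le_rfl, hDf⟩⟩
      obtain ⟨C, hC, hCmin⟩ := exists_min_image _ Finset.card hfin
      rw [mem_filter, mem_powerset] at hC
      refine ⟨C, hC.1, hC.2, fun C' hC' => ?_⟩
      by_contra hcon
      have h1 := hCmin C' (mem_filter.2 ⟨mem_powerset.2 (hC'.1.trans hC.1), hcon⟩)
      have h2 := card_lt_card hC'
      omega
    have hdis : ∀ j, Disjoint (B j) C := by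
      intro j
      rw [disjoint_left]
      intro i hi hiC
      have h1 := hC1 hiC
      rw [hD, mem_filter] at h1
      exact h1.2 (hy i (mem_biUnion.2 ⟨j, mem_univ _, hi⟩))
    have h2 := hmax (m + 1) (by
      rw [hP]
      refine ⟨Fin.snoc (α := fun _ => Finset I) B C, ?_, ?_, ?_⟩
      · intro i j
        refine Fin.lastCases ?_ (fun i => ?_) i
        · refine Fin.lastCases ?_ (fun j => ?_) j
          · intro h
            exact absurd rfl h
          · intro _
            rw [Fin.snoc_last, Fin.snoc_castSucc]
            exact (hdis j).symm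
        · refine Fin.lastCases ?_ (fun j => ?_) j
          · intro _
            rw [Fin.snoc_last, Fin.snoc_castSucc]
            exact hdis i
          · intro h
            rw [Fin.snoc_castSucc, Fin.snoc_castSucc]
            exact hB1 i j fun h' => h (by rw [h'])
      · intro j
        refine Fin.lastCases ?_ (fun j => ?_) j
        · rw [Fin.snoc_last]
          exact hC2.1
        · rw [Fin.snoc_castSucc]
          exact hB2 j
      · intro j
        refine Fin.lastCases ?_ (fun j => ?_) j
        · rw [Fin.snoc_last]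
          exact hC2.2
        · rw [Fin.snoc_castSucc]
          exact hB3 j)
    omega

/-- The decision tree of Beals et al. -/
theorem hasDT_of_bs (C : ℕ) : ∀ (k : ℕ) (f : (I → Bool) → Bool), Cert C true f →
    (∀ x, f x = false → BsLe k f x) → HasDT (k * C) f := by
  intro k
  induction k with
  | zero =>
    intro f _ hk
    by_cases h : ∃ x, f x = false
    · obtain ⟨x, hx⟩ := h
      refine hasDT_const false (fun y => ?_) _
      by_contra hne
      have h1 := hk x hx 1 (fun _ => univ.filter fun i => y i ≠ x i)
        (fun i j hij => absurd (Subsingleton.elim i j) hij) (fun _ => by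
          rw [flips_diff, hx]
          exact hne)
      omega
    · push Not at h
      exact hasDT_const true (fun x => Bool.eq_true_of_not_eq_false (h x)) _
  | succ k ih =>
    intro f hC hk
    by_cases h : ∃ y, f y = true
    · obtain ⟨y, hy⟩ := h
      obtain ⟨A, hA, hAy⟩ := hC y hy
      have h1 : HasDT (A.card + k * C) f := by
        refine hasDT_query A f (k * C) fun π => ih _ ?_ ?_
        · intro x hx
          obtain ⟨A', hA', h2⟩ := hC (ovr A π x) hx
          refine ⟨A', hA', fun z hz => h2 _ fun i hi => ?_⟩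
          unfold ovr
          rw [hz i hi]
        · intro x hx m B hB1 hB2
          obtain ⟨x', hx'⟩ : ∃ x', x' = ovr A π x := ⟨_, rfl⟩
          have hfx : f x' = false := by rw [hx']; exact hx
          obtain ⟨B0, hB0⟩ : ∃ B0 : Finset I, B0 = A.filter fun i => x' i ≠ y i := ⟨_, rfl⟩
          have hov : ∀ j, ovr A π (flips (B j) x) = flips (B j \ A) x' := by
            intro j
            funext i
            rw [hx']
            unfold ovr flips
            simp only [mem_sdiff]
            by_cases hi : i ∈ A <;> simp [hi]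
          have h3 := hk x' hfx (m + 1) (Fin.snoc (α := fun _ => Finset I)
            (fun j => B j \ A) B0) ?_ ?_
          · omega
          · have hd0 : ∀ j, Disjoint (B j \ A) B0 := by
              intro j
              rw [hB0]
              refine disjoint_left.2 fun i hi hi' => ?_
              rw [mem_sdiff] at hi
              rw [mem_filter] at hi'
              exact hi.2 hi'.1
            intro i j
            refine Fin.lastCases ?_ (fun i => ?_) i
            · refine Fin.lastCases ?_ (fun j => ?_) j
              · intro h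
                exact absurd rfl h
              · intro _
                rw [Fin.snoc_last, Fin.snoc_castSucc]
                exact (hd0 j).symm
            · refine Fin.lastCases ?_ (fun j => ?_) j
              · intro _
                rw [Fin.snoc_last, Fin.snoc_castSucc]
                exact hd0 i
              · intro h
                rw [Fin.snoc_castSucc, Fin.snoc_castSucc]
                exact (hB1 i j fun h' => h (by rw [h'])).mono sdiff_subset sdiff_subset
          · intro j
            refine Fin.lastCases ?_ (fun j => ?_) j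
            · rw [Fin.snoc_last, hfx]
              have h4 : f (flips B0 x') = f y := by
                rw [hy]
                refine hAy _ fun i hi => ?_
                rw [hB0]
                unfold flips
                simp only [mem_filter]
                by_cases hxy : x' i = y i
                · simp [hxy]
                · rw [if_pos ⟨hi, hxy⟩]
                  revert hxy
                  cases x' i <;> cases y i <;> simp
              rw [h4, hy]
              decide
            · rw [Fin.snoc_castSucc, ← hov j, hx']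
              exact hB2 j
      refine h1.mono ?_
      rw [Nat.succ_mul]
      omega
    · push Not at h
      exact hasDT_const false (fun x => Bool.eq_false_of_not_eq_true (h x)) _

/-- A function with block sensitivity at most `k` has a decision tree of depth at most `k ^ 3`. -/
theorem hasDT_cube {k : ℕ} {f : (I → Bool) → Bool} (hk : ∀ x, BsLe k f x) : HasDT (k ^ 3) f := by
  have h := hasDT_of_bs (k * k) k f (fun x hx => by
    obtain ⟨A, hA, h1⟩ := cert_of_bs hk x
    exact ⟨A, hA, fun y hy => (h1 y hy).trans hx⟩) (fun x _ => hk x)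
  rw [show k ^ 3 = k * (k * k) by ring]
  exact h

end

section

variable {N : ℕ} {R K L : Type} [Fintype R]

/-- The entries of the list are determined by few bits. -/
theorem local_bs {sat : L → K → Prop} {ε δ κ η : ℝ} (hε : 0 ≤ ε) (hδ : 0 ≤ δ)
    (hεδ : ε + δ < 1) (hκ : 0 ≤ κ) {Ω : Type} [Fintype Ω] [Nonempty Ω] (t : ℕ)
    (f : (Fin N → Bool) → Bool) (Y : Ω → (Fin N → Bool) → R → Option K)
    (hY : ∀ ω r x, ∃ A : Finset (Fin N), A.card ≤ t ∧ ∀ y, (∀ i ∈ A, y i = x i) →
      Y ω y r = Y ω x r)
    (hp : ∀ x, (1 - η) * Fintype.card Ω ≤ ((univ.filter fun ω => Right sat ε δ (f x) (Y ω x) ∧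
      κ * Fintype.card R ≤ total (Y ω x)).card : ℝ))
    (x : Fin N → Bool) (m : ℕ) (B : Fin m → Finset (Fin N))
    (hB : ∀ i j, i ≠ j → Disjoint (B i) (B j)) (hs : ∀ j, f (flips (B j) x) ≠ f x) :
    (1 - ε - δ) * κ * (1 - 2 * η) * m ≤ t := by
  have hc : (0 : ℝ) < Fintype.card Ω := by exact_mod_cast Fintype.card_pos
  have h0 : 0 ≤ (1 - ε - δ) * κ := mul_nonneg (by linarith) hκ
  obtain ⟨A, hA⟩ : ∃ A : Ω → (Fin N → Bool) → Prop, A = fun ω x =>
      Right sat ε δ (f x) (Y ω x) ∧ κ * Fintype.card R ≤ total (Y ω x) := ⟨_, rfl⟩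
  have hp' : ∀ x, (1 - η) * Fintype.card Ω ≤ ∑ ω, (if A ω x then (1 : ℝ) else 0) := by
    intro x
    have h1 := hp x
    rw [card_filter] at h1
    push_cast at h1
    rw [hA]
    convert h1
  -- few blocks change an entry
  have h1 : ∀ ω r, ((univ.filter fun j => Y ω (flips (B j) x) r ≠ Y ω x r).card) ≤ t := by
    intro ω r
    obtain ⟨D, hD, h2⟩ := hY ω r x
    refine le_trans ?_ hD
    have h3 : ∀ j ∈ (univ.filter fun j => Y ω (flips (B j) x) r ≠ Y ω x r),
        ∃ i, i ∈ D ∧ i ∈ B j := by
      intro j hj
      rw [mem_filter] at hj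
      by_contra hcon
      push Not at hcon
      apply hj.2
      refine h2 _ fun i hi => ?_
      unfold flips
      rw [if_neg (hcon i hi)]
    have h4 : ∃ g : Fin m → Fin N, ∀ j ∈ (univ.filter fun j => Y ω (flips (B j) x) r ≠ Y ω x r),
        g j ∈ D ∧ g j ∈ B j := by
      by_cases hN : Nonempty (Fin N)
      · have h5 : ∀ j, ∃ i, j ∈ (univ.filter fun j => Y ω (flips (B j) x) r ≠ Y ω x r) →
            i ∈ D ∧ i ∈ B j := by
          intro j
          by_cases hj : j ∈ (univ.filter fun j => Y ω (flips (B j) x) r ≠ Y ω x r)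
          · obtain ⟨i, hi⟩ := h3 j hj
            exact ⟨i, fun _ => hi⟩
          · exact ⟨hN.some, fun h => absurd h hj⟩
        choose g hg using h5
        exact ⟨g, hg⟩
      · by_cases hm : ∃ j, j ∈ (univ.filter fun j => Y ω (flips (B j) x) r ≠ Y ω x r)
        · obtain ⟨j, hj⟩ := hm
          obtain ⟨i, _⟩ := h3 j hj
          exact absurd ⟨i⟩ hN
        · push Not at hm
          by_cases hm0 : m = 0
          · subst hm0
            exact ⟨fun j => j.elim0, fun j => j.elim0⟩
          · exfalso
            have j0 : Fin m := ⟨0, Nat.pos_of_ne_zero hm0⟩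
            apply hs j0
            congr 1
            funext i
            exact absurd ⟨i⟩ hN
    obtain ⟨g, hg⟩ := h4
    refine card_le_card_of_injOn g (fun j hj => (hg j hj).1) ?_
    intro j hj j' hj' hjj
    by_contra hne
    have h6 := hB j j' hne
    rw [disjoint_left] at h6
    exact h6 (hg j hj).2 (hjj ▸ (hg j' hj').2)
  -- right lists differ in many entries
  have h2 : ∀ ω j, (1 - ε - δ) * κ * Fintype.card R *
      ((if A ω x then (1 : ℝ) else 0) + (if A ω (flips (B j) x) then (1 : ℝ) else 0) - 1) ≤
      ((univ.filter fun r => Y ω (flips (B j) x) r ≠ Y ω x r).card : ℝ) := by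
    intro ω j
    have hnn : 0 ≤ (1 - ε - δ) * κ * Fintype.card R := mul_nonneg h0 (Nat.cast_nonneg _)
    by_cases hg : A ω x ∧ A ω (flips (B j) x)
    · rw [if_pos hg.1, if_pos hg.2]
      have e1 : (1 : ℝ) + 1 - 1 = 1 := by norm_num
      rw [e1, mul_one, mul_assoc]
      obtain ⟨hx, hy⟩ := hg
      rw [hA] at hx hy
      obtain ⟨⟨-, ha1, ha2⟩, ha3⟩ := hx
      obtain ⟨⟨-, hb1, hb2⟩, hb3⟩ := hy
      have hne := hs j
      cases h : f x
      · have h2 : f (flips (B j) x) = true := by
          rw [h] at hne
          exact Bool.eq_true_of_not_eq_false hne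
        refine (Pool.Agent.X246.ACR.pair_ne hε hδ hεδ (hb1 h2) (ha2 h) hb3 ha3).trans ?_
        simp only [ne_comm]
        exact le_rfl
      · have h2 : f (flips (B j) x) = false := by
          rw [h] at hne
          exact Bool.eq_false_of_not_eq_true hne
        exact Pool.Agent.X246.ACR.pair_ne hε hδ hεδ (ha1 h) (hb2 h2) ha3 hb3
    · have h3 : (if A ω x then (1 : ℝ) else 0) +
          (if A ω (flips (B j) x) then (1 : ℝ) else 0) - 1 ≤ 0 := by
        by_cases ha : A ω x <;> by_cases hb : A ω (flips (B j) x)
        · exact absurd ⟨ha, hb⟩ hg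
        all_goals simp [ha, hb]
      exact (mul_nonpos_of_nonneg_of_nonpos hnn h3).trans (Nat.cast_nonneg _)
  have hR : m = 0 ∨ η ≥ 1 ∨ (0 : ℝ) < Fintype.card R := by
    by_cases hη : η ≥ 1
    · exact Or.inr (Or.inl hη)
    · refine Or.inr (Or.inr ?_)
      have h3 := hp x
      have h4 : (0 : ℝ) < (1 - η) * Fintype.card Ω := mul_pos (by linarith) hc
      have h5 := Nat.cast_pos.1 (h4.trans_le h3)
      obtain ⟨ω, hω⟩ := card_pos.1 h5
      have h6 := (mem_filter.1 hω).2.1.1
      unfold total at h6
      have h7 : 1 ≤ Fintype.card R := h6.trans (card_le_univ _)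
      exact_mod_cast h7
  rcases hR with hm | hη | hR
  · rw [hm, Nat.cast_zero, mul_zero]
    exact Nat.cast_nonneg _
  · have h3 : (1 - 2 * η) ≤ 0 := by linarith
    have h4 : (1 - ε - δ) * κ * (1 - 2 * η) * m ≤ 0 := by
      refine mul_nonpos_of_nonpos_of_nonneg ?_ (Nat.cast_nonneg _)
      exact mul_nonpos_of_nonneg_of_nonpos h0 h3
    exact h4.trans (Nat.cast_nonneg _)
  have h3 := sum_le_sum fun ω (_ : ω ∈ (univ : Finset Ω)) =>
    sum_le_sum fun j (_ : j ∈ (univ : Finset (Fin m))) => h2 ω j
  simp_rw [← mul_sum] at h3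
  have h4 : ∑ ω, ∑ j : Fin m, ((if A ω x then (1 : ℝ) else 0) +
      (if A ω (flips (B j) x) then (1 : ℝ) else 0) - 1) ≥ m * ((1 - 2 * η) * Fintype.card Ω) := by
    rw [sum_comm]
    have h5 : ∀ j : Fin m, (1 - 2 * η) * Fintype.card Ω ≤ ∑ ω, ((if A ω x then (1 : ℝ) else 0) +
        (if A ω (flips (B j) x) then (1 : ℝ) else 0) - 1) := by
      intro j
      rw [sum_sub_distrib, sum_add_distrib, sum_const, card_univ, nsmul_eq_mul, mul_one]
      have h6 := hp' x
      have h7 := hp' (flips (B j) x)
      linarith
    have h6 := sum_le_sum fun j (_ : j ∈ (univ : Finset (Fin m))) => h5 j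
    rw [sum_const, card_univ, Fintype.card_fin, nsmul_eq_mul] at h6
    exact h6
  have h5 : ∑ ω, ∑ j : Fin m, ((univ.filter fun r => Y ω (flips (B j) x) r ≠ Y ω x r).card : ℝ) ≤
      Fintype.card Ω * (Fintype.card R * t) := by
    have h6 : ∀ ω, ∑ j : Fin m, ((univ.filter fun r => Y ω (flips (B j) x) r ≠ Y ω x r).card : ℝ) ≤
        Fintype.card R * t := by
      intro ω
      have h7 : ∑ j : Fin m, ((univ.filter fun r => Y ω (flips (B j) x) r ≠ Y ω x r).card : ℝ) =
          ∑ r, ((univ.filter fun j => Y ω (flips (B j) x) r ≠ Y ω x r).card : ℝ) := by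
        simp_rw [card_filter]
        push_cast
        rw [sum_comm]
      rw [h7]
      calc _ ≤ ∑ _r : R, (t : ℝ) := sum_le_sum fun r _ => by exact_mod_cast h1 ω r
        _ = _ := by rw [sum_const, card_univ, nsmul_eq_mul]
    calc _ ≤ ∑ _ω : Ω, (Fintype.card R * t : ℝ) := sum_le_sum fun ω _ => h6 ω
      _ = _ := by rw [sum_const, card_univ, nsmul_eq_mul]
  have h6 : 0 ≤ (1 - ε - δ) * κ * Fintype.card R := mul_nonneg h0 hR.le
  have h7 := mul_le_mul_of_nonneg_left h4 h6
  have h8 : ((1 - ε - δ) * κ * (1 - 2 * η) * m) * (Fintype.card Ω * Fintype.card R) ≤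
      t * (Fintype.card Ω * Fintype.card R) := by
    calc _ = (1 - ε - δ) * κ * Fintype.card R * (m * ((1 - 2 * η) * Fintype.card Ω)) := by ring
      _ ≤ _ := h7
      _ ≤ _ := h3
      _ ≤ _ := h5
      _ = _ := by ring
  exact le_of_mul_le_mul_right h8 (by positivity)

end

end Pool.Agent.X245.GEN
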