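import Pool.Agent.X246.ACR.Fin
import Pool.Agent.X246.ACR.NegUp
import Pool.Agent.X245.PFM.AcSens

set_option autoImplicit false

/-!
# Reductions from arbitrary languages to gap problems
-/

namespace Pool.Agent.X245.GEN

open Finset DomAC0 H568R2 Pool.Agent.TH163.AC3 Pool.Agent.Y601 Pool.Agent.X246.ACR

open scoped Classical

section

variable {R K L : Type} [Fintype R]

/-- The list `y` is right for the answer `p` (true: in the language): it is not empty, and its value is
at least `1 - ε` if `p` is true, and at most `δ` otherwise. -/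
def Right (sat : L → K → Prop) (ε δ : ℝ) (p : Bool) (y : R → Option K) : Prop :=
  1 ≤ total y ∧ (p = true → ∃ l, (1 - ε) * total y ≤ good sat y l) ∧
    (p = false → ∀ l, (good sat y l : ℝ) ≤ δ * total y)

end

section

variable {N : ℕ} {R K L : Type} [Fintype R]

/-- The mean number of the bits whose change changes the answer, if the list is right before and after
the change. -/
noncomputable def rightSens (sat : L → K → Prop) (ε δ : ℝ) (f : (Fin N → Bool) → Bool)
    (Y : (Fin N → Bool) → R → Option K) : ℝ :=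
  (∑ x : Fin N → Bool, ((univ.filter fun i => f (Function.update x i (!x i)) ≠ f x ∧
    Right sat ε δ (f x) (Y x) ∧
    Right sat ε δ (f (Function.update x i (!x i))) (Y (Function.update x i (!x i)))).card : ℝ)) /
    2 ^ N

/-- the indicator of a changed answer -/
noncomputable def rs1 (sat : L → K → Prop) (ε δ : ℝ) (f : (Fin N → Bool) → Bool)
    (Y : (Fin N → Bool) → R → Option K) (i : Fin N) (x : Fin N → Bool) : ℝ :=
  if f (SSE.flip i x) ≠ f x ∧ Right sat ε δ (f x) (Y x) ∧
    Right sat ε δ (f (SSE.flip i x)) (Y (SSE.flip i x)) then 1 else 0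

theorem rs1_le {sat : L → K → Prop} {ε δ : ℝ} (hε : 0 ≤ ε) (hδ : 0 ≤ δ)
    (f : (Fin N → Bool) → Bool) (Y : (Fin N → Bool) → R → Option K) (i : Fin N)
    (x : Fin N → Bool) :
    (1 - ε - δ) * rs1 sat ε δ f Y i x ≤
      frac (Y x) (Y (SSE.flip i x)) + frac (Y (SSE.flip i x)) (Y x) := by
  unfold rs1
  split_ifs with h
  · obtain ⟨h1, ⟨hx1, hx2, hx3⟩, hy1, hy2, hy3⟩ := h
    rw [mul_one]
    cases hx : f x
    · have hy : f (SSE.flip i x) = true := by
        rw [hx] at h1
        exact Bool.eq_true_of_not_eq_false h1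
      have := pair hε hδ (hy2 hy) (hx3 hx) hy1 hx1
      linarith
    · have hy : f (SSE.flip i x) = false := by
        rw [hx] at h1
        exact Bool.eq_false_of_not_eq_true h1
      exact pair hε hδ (hx2 hx) (hy3 hy) hx1 hy1
  · rw [mul_zero]
    exact add_nonneg (frac_nonneg _ _) (frac_nonneg _ _)

theorem rightSens_eq (sat : L → K → Prop) (ε δ : ℝ) (f : (Fin N → Bool) → Bool)
    (Y : (Fin N → Bool) → R → Option K) :
    rightSens sat ε δ f Y * 2 ^ N = ∑ i, ∑ x, rs1 sat ε δ f Y i x := by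
  unfold rightSens
  rw [div_mul_cancel₀ _ (by positivity), sum_comm]
  refine sum_congr rfl fun x _ => ?_
  rw [card_filter]
  push_cast
  rfl

/-- the double counting, for the changes of the bits in `J` -/
theorem core_J {sat : L → K → Prop} {ε δ : ℝ} (hε : 0 ≤ ε) (hδ : 0 ≤ δ)
    (f : (Fin N → Bool) → Bool) (Y : (Fin N → Bool) → R → Option K) (ρ : Restr (Fin N))
    (J : Finset (Fin N)) (hJ : ∀ i ∈ J, ρ i = none) :
    (1 - ε - δ) * ∑ z, ∑ i ∈ J, rs1 sat ε δ f Y i (ov ρ z) ≤
      2 * ∑ z, ∑ i ∈ J, frac (Y (ov ρ z)) (Y (ov ρ (SSE.flip i z))) := by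
  calc (1 - ε - δ) * ∑ z, ∑ i ∈ J, rs1 sat ε δ f Y i (ov ρ z)
      = ∑ z, ∑ i ∈ J, (1 - ε - δ) * rs1 sat ε δ f Y i (ov ρ z) := by
        rw [mul_sum]
        exact sum_congr rfl fun x _ => by rw [mul_sum]
    _ ≤ ∑ z, ∑ i ∈ J, (frac (Y (ov ρ z)) (Y (ov ρ (SSE.flip i z))) +
          frac (Y (ov ρ (SSE.flip i z))) (Y (ov ρ z))) := by
        refine sum_le_sum fun z _ => sum_le_sum fun i hi => ?_
        have h1 := rs1_le hε hδ f Y i (ov ρ z) (sat := sat)
        rw [← SSE.ov_flip ρ i (hJ i hi)] at h1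
        exact h1
    _ = ∑ i ∈ J, ∑ z, frac (Y (ov ρ z)) (Y (ov ρ (SSE.flip i z))) +
          ∑ i ∈ J, ∑ z, frac (Y (ov ρ (SSE.flip i z))) (Y (ov ρ z)) := by
        rw [sum_comm, ← sum_add_distrib]
        exact sum_congr rfl fun i _ => by rw [sum_add_distrib]
    _ = ∑ i ∈ J, ∑ z, frac (Y (ov ρ z)) (Y (ov ρ (SSE.flip i z))) +
          ∑ i ∈ J, ∑ z, frac (Y (ov ρ z)) (Y (ov ρ (SSE.flip i z))) := by
        congr 1
        refine sum_congr rfl fun i _ => ?_
        rw [← sum_flip i fun z => frac (Y (ov ρ (SSE.flip i z))) (Y (ov ρ z))]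
        exact sum_congr rfl fun x _ => by rw [SSE.flip_flip]
    _ = _ := by rw [sum_comm (s := univ)]; ring

/-- The general bound. -/
theorem sens_gen {sat : L → K → Prop} {ε δ : ℝ} (hε : 0 ≤ ε) (hδ : 0 ≤ δ)
    (f : (Fin N → Bool) → Bool) (Y : (Fin N → Bool) → R → Option K) :
    (1 - ε - δ) * rightSens sat ε δ f Y ≤ 2 * ((∑ x, meanSens Y x) / 2 ^ N) := by
  have h0 : ∀ x : Fin N → Bool, ov (fun _ => none : Restr (Fin N)) x = x := by
    intro x
    funext i
    simp [ov]
  have h1 := core_J (sat := sat) hε hδ f Y (fun _ => none) univ (fun _ _ => rfl)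
  simp_rw [h0] at h1
  have h2 : ∑ x, ∑ i, frac (Y x) (Y (SSE.flip i x)) = ∑ x, meanSens Y x := by
    refine sum_congr rfl fun x _ => ?_
    rw [sum_frac]
    rfl
  rw [h2, sum_comm, ← rightSens_eq] at h1
  have h3 : (0 : ℝ) < 2 ^ N := by positivity
  rw [← mul_div_assoc, le_div_iff₀ h3]
  linarith

theorem shallow_gen {sat : L → K → Prop} {ε δ : ℝ} (hε : 0 ≤ ε) (hδ : 0 ≤ δ)
    (f : (Fin N → Bool) → Bool)
    (C : Circuit (Fin N)) {b : ℕ} (out : R → Fin b → Fin N ⊕ Fin C.size)
    (dec : R → (Fin b → Bool) → Option K) (h : ℕ) (hh : ∀ r j, C.nodeDepth (out r j) ≤ h)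
    {s : ℕ} (hs : 1 ≤ s) (ρ : Restr (Fin N)) (hρ : Shallow C s h ρ) :
    (1 - ε - δ) * Ex un (fun z => ∑ i, if ρ i = none then
      rs1 sat ε δ f (inst C out dec) i (ov ρ z) else 0) ≤ 2 * (b * s) := by
  obtain ⟨J, hJ⟩ : ∃ J : Finset (Fin N), J = univ.filter fun i => ρ i = none := ⟨_, rfl⟩
  have hJm : ∀ i ∈ J, ρ i = none := fun i hi => by
    rw [hJ, mem_filter] at hi
    exact hi.2
  have h1 := core_J (sat := sat) hε hδ f (inst C out dec) ρ J hJm
  have h2 : ∀ z, ∑ i ∈ J, frac (inst C out dec (ov ρ z)) (inst C out dec (ov ρ (SSE.flip i z))) ≤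
      b * s := by
    intro z
    refine sum_frac_le (fun z => inst C out dec (ov ρ z)) J z _ (by positivity) fun r => ?_
    have h3 : sens (fun z => inst C out dec (ov ρ z)) J r z ≤ b * s := by
      unfold sens
      have h4 : (J.filter fun i => inst C out dec (ov ρ (SSE.flip i z)) r ≠
          inst C out dec (ov ρ z) r) ⊆ (univ : Finset (Fin b)).biUnion fun j =>
          J.filter fun i => rs (fun x => C.nodeVal x (out r j)) ρ (SSE.flip i z) ≠
            rs (fun x => C.nodeVal x (out r j)) ρ z := by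
        intro i hi
        rw [mem_filter] at hi
        rw [mem_biUnion]
        by_contra hcon
        push Not at hcon
        apply hi.2
        unfold inst
        congr 1
        funext j
        have := hcon j (mem_univ _)
        rw [mem_filter] at this
        push Not at this
        exact this hi.1
      refine (card_le_card h4).trans (card_biUnion_le.trans ?_)
      refine (sum_le_sum fun j _ => SSE.sens_le (node_dt C hs hρ (out r j) (hh r j)) J z).trans ?_
      rw [sum_const, card_univ, Fintype.card_fin, smul_eq_mul]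
    exact_mod_cast h3
  have h5 : ∑ z, ∑ i ∈ J, frac (inst C out dec (ov ρ z)) (inst C out dec (ov ρ (SSE.flip i z))) ≤
      2 ^ N * (b * s) := by
    refine (sum_le_sum fun z _ => h2 z).trans ?_
    rw [sum_const, card_univ, Fintype.card_fun, Fintype.card_bool, Fintype.card_fin, nsmul_eq_mul]
    push_cast
    exact le_rfl
  have h6 := Ex_un (I := Fin N) (fun z => ∑ i, if ρ i = none then
      rs1 sat ε δ f (inst C out dec) i (ov ρ z) else 0)
  rw [Fintype.card_fin] at h6
  have h7 : ∑ z : Fin N → Bool, (∑ i, if ρ i = none then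
      rs1 sat ε δ f (inst C out dec) i (ov ρ z) else 0) =
      ∑ z : Fin N → Bool, ∑ i ∈ J, rs1 sat ε δ f (inst C out dec) i (ov ρ z) := by
    refine sum_congr rfl fun z _ => ?_
    rw [hJ, sum_filter]
  rw [h7] at h6
  have h8 : (0 : ℝ) < 2 ^ N := by positivity
  have h9 : (2 : ℝ) ^ N * ((1 - ε - δ) * Ex un (fun z => ∑ i, if ρ i = none then
      rs1 sat ε δ f (inst C out dec) i (ov ρ z) else 0)) ≤ 2 ^ N * (2 * (b * s)) := by
    rw [mul_left_comm, h6]
    linarith
  exact le_of_mul_le_mul_left h9 h8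

/-- Circuits of small depth. -/
theorem ac0_gen {sat : L → K → Prop} {ε δ : ℝ} (hε : 0 ≤ ε) (hδ : 0 ≤ δ) (hεδ : ε + δ < 1)
    (f : (Fin N → Bool) → Bool)
    (C : Circuit (Fin N)) {b : ℕ} (hb : 1 ≤ b) (out : R → Fin b → Fin N ⊕ Fin C.size)
    (dec : R → (Fin b → Bool) → Option K) (h : ℕ) (hh : ∀ r j, C.nodeDepth (out r j) ≤ h)
    {s : ℕ} (hs : 1 ≤ s) (hcond : (h : ℝ) * C.size * N ≤ 2 ^ s) :
    (1 - ε - δ) * rightSens sat ε δ f (inst C out dec) ≤ b * (24 * s) ^ (h + 1) := by
  have hs0 : (1 : ℝ) ≤ s := by exact_mod_cast hs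
  have hb0 : (1 : ℝ) ≤ b := by exact_mod_cast hb
  have hg0 : 0 ≤ 1 - ε - δ := by linarith
  obtain ⟨q, hq⟩ : ∃ q : ℝ, q = 1 / (24 * s) := ⟨_, rfl⟩
  have hq0 : 0 < q := by rw [hq]; positivity
  have hq1 : q ≤ 1 / 3 := by
    rw [hq, div_le_div_iff₀ (by positivity) (by norm_num)]
    linarith
  have hbad := collapse' C hq0.le hq1 hs h
  have h1 : (12 * s * q : ℝ) = 1 / 2 := by rw [hq]; field_simp; norm_num
  rw [h1] at hbad
  have hqh : 0 < q ^ h := by positivity
  have hqs : q ^ h * (24 * s) ^ h = 1 := by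
    rw [← mul_pow, hq]
    have : (1 : ℝ) / (24 * s) * (24 * s) = 1 := by field_simp
    rw [this, one_pow]
  obtain ⟨Y, hY⟩ : ∃ Y, Y = inst C out dec := ⟨_, rfl⟩
  obtain ⟨g, hg⟩ : ∃ g : Restr (Fin N) → ℝ, g = fun ρ => Ex un (fun z => ∑ i, if ρ i = none then
      rs1 sat ε δ f Y i (ov ρ z) else 0) := ⟨_, rfl⟩
  have hmean : 2 ^ N * Ex (wq (q ^ h)) g = q ^ h * (rightSens sat ε δ f Y * 2 ^ N) := by
    have e1 : g = fun ρ => ∑ i, Ex un (fun z => if ρ i = none then
        rs1 sat ε δ f Y i (ov ρ z) else 0) := by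
      rw [hg]
      funext ρ
      exact Ex_sum univ un fun i z => if ρ i = none then rs1 sat ε δ f Y i (ov ρ z) else 0
    rw [e1, Ex_sum univ (wq (q ^ h)) fun i (ρ : Restr (Fin N)) => Ex un (fun z =>
      if ρ i = none then rs1 sat ε δ f Y i (ov ρ z) else 0)]
    simp_rw [ex_star_ov]
    rw [rightSens_eq, mul_sum, mul_sum]
    refine sum_congr rfl fun i _ => ?_
    have e2 := Ex_un (I := Fin N) (rs1 sat ε δ f Y i)
    rw [Fintype.card_fin] at e2
    rw [mul_left_comm, e2]
  have hw : ∀ a, 0 ≤ wq (q ^ h) a :=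
    wq_nonneg hqh.le (pow_le_one₀ hq0.le (by linarith))
  have hrs : ∀ i x, rs1 sat ε δ f Y i x ≤ 1 := by
    intro i x
    unfold rs1
    split_ifs <;> norm_num
  have hgN : ∀ ρ, g ρ ≤ N := by
    intro ρ
    rw [hg]
    show Ex un _ ≤ _
    refine (Ex_mono un_nonneg (G := fun _ => (N : ℝ)) fun z => ?_).trans
      (le_of_eq (Ex_const un_sum _))
    calc _ ≤ ∑ _i : Fin N, (1 : ℝ) := by
          refine sum_le_sum fun i _ => ?_
          split_ifs
          · exact hrs i _
          · norm_num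
      _ = N := by rw [sum_const, card_univ, Fintype.card_fin, nsmul_eq_mul, mul_one]
  have hpt : ∀ ρ, (1 - ε - δ) * g ρ ≤
      (1 - ε - δ) * N * (if ¬ Shallow C s h ρ then (1 : ℝ) else 0) + 2 * (b * s) := by
    intro ρ
    by_cases hS : Shallow C s h ρ
    · rw [if_neg (not_not.2 hS), mul_zero, zero_add, hg, hY]
      exact shallow_gen hε hδ f C out dec h hh hs ρ hS
    · rw [if_pos hS, mul_one]
      have := mul_le_mul_of_nonneg_left (hgN ρ) hg0
      have h3 : (0 : ℝ) ≤ 2 * (b * s) := by positivity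
      linarith
  have h8 := Ex_mono hw hpt
  rw [Ex_smul, Ex_add (wq (q ^ h)) (fun ρ : Restr (Fin N) => (1 - ε - δ) * N *
      (if ¬ Shallow C s h ρ then (1 : ℝ) else 0)) fun _ => (2 * (b * s) : ℝ),
    Ex_smul, Ex_const (wq_sum _)] at h8
  have hN0 : (0 : ℝ) ≤ N := Nat.cast_nonneg _
  have h9 : (1 - ε - δ) * N * Ex (wq (q ^ h)) (fun ρ : Restr (Fin N) =>
      if ¬ Shallow C s h ρ then (1 : ℝ) else 0) ≤ 1 / 2 := by
    refine (mul_le_mul_of_nonneg_left hbad (mul_nonneg hg0 hN0)).trans ?_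
    have h5 : ((1 : ℝ) / 2) ^ (s + 1) * 2 ^ s = 1 / 2 := by
      rw [pow_succ, mul_right_comm, ← mul_pow]
      norm_num
    have h6 : (h : ℝ) * C.size * N * (1 / 2) ^ (s + 1) ≤ 1 / 2 := by
      calc (h : ℝ) * C.size * N * (1 / 2) ^ (s + 1) ≤ 2 ^ s * (1 / 2) ^ (s + 1) :=
            mul_le_mul_of_nonneg_right hcond (by positivity)
        _ = 1 / 2 := by rw [mul_comm]; exact h5
    have h7 : (0 : ℝ) ≤ (h : ℝ) * C.size * N * (1 / 2) ^ (s + 1) := by positivity
    calc (1 - ε - δ) * N * (h * C.size * (1 / 2) ^ (s + 1)) =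
          (1 - ε - δ) * (h * C.size * N * (1 / 2) ^ (s + 1)) := by ring
      _ ≤ 1 * (h * C.size * N * (1 / 2) ^ (s + 1)) :=
          mul_le_mul_of_nonneg_right (by linarith) h7
      _ ≤ 1 / 2 := by rw [one_mul]; exact h6
  have hbs : (1 : ℝ) ≤ b * s := by nlinarith
  have h10 : (1 - ε - δ) * Ex (wq (q ^ h)) g ≤ 3 * (b * s) := by linarith
  have h11 : (1 - ε - δ) * (q ^ h * rightSens sat ε δ f Y) ≤ 3 * (b * s) := by
    have h12 : Ex (wq (q ^ h)) g = q ^ h * rightSens sat ε δ f Y := by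
      have h13 : (2 : ℝ) ^ N ≠ 0 := by positivity
      have h14 : 2 ^ N * Ex (wq (q ^ h)) g = 2 ^ N * (q ^ h * rightSens sat ε δ f Y) := by
        rw [hmean]
        ring
      exact mul_left_cancel₀ h13 h14
    rw [← h12]
    exact h10
  have h12 : (1 - ε - δ) * rightSens sat ε δ f Y ≤ 3 * (b * s) * (24 * s) ^ h := by
    calc (1 - ε - δ) * rightSens sat ε δ f Y =
          (1 - ε - δ) * (q ^ h * rightSens sat ε δ f Y) * (24 * s) ^ h := by
          rw [mul_comm (q ^ h), ← mul_assoc, mul_assoc _ (q ^ h), hqs, mul_one]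
      _ ≤ 3 * (b * s) * (24 * s) ^ h := mul_le_mul_of_nonneg_right h11 (by positivity)
  rw [← hY]
  refine h12.trans ?_
  rw [pow_succ]
  have h15 : (b : ℝ) * ((24 * s) ^ h * (24 * s)) = (b * (24 * s) ^ h) * (24 * s) := by ring
  have h16 : 3 * (b * s) * (24 * (s : ℝ)) ^ h = (b * (24 * s) ^ h) * (3 * s) := by ring
  rw [h15, h16]
  exact mul_le_mul_of_nonneg_left (by linarith) (by positivity)

/-- Formulas. -/
theorem form_gen {sat : L → K → Prop} {ε δ : ℝ} (hε : 0 ≤ ε) (hδ : 0 ≤ δ)
    (f : (Fin N → Bool) → Bool) {b : ℕ} (F : R → Fin b → DeMorgan (Fin N))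
    (dec : R → (Fin b → Bool) → K) (S : ℕ) (hS : ∀ r j, (F r j).size ≤ S) :
    (1 - ε - δ) * rightSens sat ε δ f (fun x r => some (dec r fun j => (F r j).eval x)) ≤
      2 * (b * √S) := by
  refine (sens_gen hε hδ f _).trans ?_
  refine mul_le_mul_of_nonneg_left ?_ (by norm_num)
  rw [div_le_iff₀ (by positivity)]
  rcases Nat.eq_zero_or_pos (Fintype.card R) with h0 | h0
  · have : IsEmpty R := Fintype.card_eq_zero_iff.1 h0
    have h1 : ∀ x, meanSens (fun x (r : R) => some (dec r fun j => (F r j).eval x)) x = 0 := by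
      intro x
      unfold meanSens
      simp
    rw [sum_eq_zero fun x _ => h1 x]
    positivity
  have hR : (0 : ℝ) < Fintype.card R := by exact_mod_cast h0
  have h1 : ∀ x, meanSens (fun x (r : R) => some (dec r fun j => (F r j).eval x)) x ≤
      (∑ r, ∑ j, ((univ.filter fun i => (F r j).eval (SSE.flip i x) ≠ (F r j).eval x).card : ℝ)) /
        Fintype.card R := by
    intro x
    unfold meanSens
    have h2 : ((univ.filter fun r : R => some (dec r fun j => (F r j).eval x) ≠ none).card : ℝ) =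
        Fintype.card R := by
      rw [filter_true_of_mem (fun r _ => by simp), card_univ]
    rw [h2]
    apply div_le_div_of_nonneg_right _ hR.le
    refine sum_le_sum fun r _ => ?_
    rw [if_pos (by simp)]
    have h3 : (univ.filter fun i => some (dec r fun j => (F r j).eval (SSE.flip i x)) ≠
        some (dec r fun j => (F r j).eval x)) ⊆ (univ : Finset (Fin b)).biUnion fun j =>
        univ.filter fun i => (F r j).eval (SSE.flip i x) ≠ (F r j).eval x := by
      intro i hi
      rw [mem_filter] at hi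
      rw [mem_biUnion]
      by_contra hcon
      push Not at hcon
      apply hi.2
      congr 2
      funext j
      have := hcon j (mem_univ _)
      rw [mem_filter] at this
      push Not at this
      exact this (mem_univ _)
    exact_mod_cast (card_le_card h3).trans card_biUnion_le
  refine (sum_le_sum fun x _ => h1 x).trans ?_
  rw [← sum_div, div_le_iff₀ hR, sum_comm]
  calc ∑ r, ∑ x : Fin N → Bool, ∑ j,
        ((univ.filter fun i => (F r j).eval (SSE.flip i x) ≠ (F r j).eval x).card : ℝ)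
      = ∑ r, ∑ j, ∑ x : Fin N → Bool,
        ((univ.filter fun i => (F r j).eval (SSE.flip i x) ≠ (F r j).eval x).card : ℝ) :=
        sum_congr rfl fun r _ => sum_comm
    _ ≤ ∑ _r : R, ∑ _j : Fin b, 2 ^ N * √S := by
        refine sum_le_sum fun r _ => sum_le_sum fun j _ => ?_
        refine (sum_sens_le (F r j)).trans ?_
        rw [Fintype.card_fin]
        apply mul_le_mul_of_nonneg_left _ (by positivity)
        exact Real.sqrt_le_sqrt (by exact_mod_cast hS r j)
    _ = b * √S * 2 ^ N * Fintype.card R := by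
        rw [sum_const, sum_const, card_univ, card_univ, Fintype.card_fin, nsmul_eq_mul,
          nsmul_eq_mul]
        ring

end

end Pool.Agent.X245.GEN
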